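import Pool.Agent.Q128.HD.Nrm

set_option autoImplicit false

/-!
# The minimal discriminant and the cross ratios of the Weierstrass points, locally
-/

namespace Pool.Agent.Q128.HD

open Polynomial Finset NumberField IsDedekindDomain WithZero Pool.Agent.W318

variable {K : Type} [Field K] [NumberField K] {v : HeightOneSpectrum (𝓞 K)} {h : ℕ}

theorem exists_scale (v : HeightOneSpectrum (𝓞 K)) {a b : K} (hab : a ≠ 0 ∨ b ≠ 0) :
    ∃ s : K, s ≠ 0 ∧ max (v.valuation K (s * a)) (v.valuation K (s * b)) = 1 := by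
  obtain ⟨ϖ, hϖ0, hϖ1, hϖ⟩ := exists_unif v
  have key : ∀ x y : K, x ≠ 0 → v.valuation K y ≤ v.valuation K x →
      ∃ s : K, s ≠ 0 ∧ max (v.valuation K (s * x)) (v.valuation K (s * y)) = 1 := by
    intro x y hx hxy
    refine ⟨x⁻¹, inv_ne_zero hx, ?_⟩
    have hvx : v.valuation K x ≠ 0 := (Valuation.ne_zero_iff _).mpr hx
    rw [inv_mul_cancel₀ hx, map_one, map_mul, map_inv₀]
    apply max_eq_left
    calc (v.valuation K x)⁻¹ * v.valuation K y ≤ (v.valuation K x)⁻¹ * v.valuation K x := by gcongr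
      _ = 1 := inv_mul_cancel₀ hvx
  rcases le_total (v.valuation K b) (v.valuation K a) with h1 | h1
  · refine key a b ?_ h1
    rintro rfl
    rw [map_zero] at h1
    have h2 : b = 0 := by
      by_contra h3
      exact (Valuation.ne_zero_iff _).mpr h3 (le_antisymm h1 zero_le)
    rcases hab with h3 | h3
    · exact h3 rfl
    · exact h3 h2
  · obtain ⟨s, hs, h2⟩ := key b a (by
      rintro rfl
      rw [map_zero] at h1
      have h2 : a = 0 := by
        by_contra h3
        exact (Valuation.ne_zero_iff _).mpr h3 (le_antisymm h1 zero_le)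
      rcases hab with h3 | h3
      · exact h3 h2
      · exact h3 rfl) h1
    exact ⟨s, hs, by rw [max_comm]; exact h2⟩

theorem exists_nrm (v : HeightOneSpectrum (𝓞 K)) (hh : 1 ≤ h) {u₀ : K} (hu : u₀ ≠ 0)
    (α β : Fin (h + h) → K) (hc : ∀ i j, i ≠ j → α i * β j - α j * β i ≠ 0) :
    ∃ (u : K) (α' β' : Fin (h + h) → K), Nrm v h (C u₀ * ∏ i, (C (α i) * X + C (β i)))
      (fun i j => α i * β j - α j * β i) u α' β' := by
  have hab : ∀ i, α i ≠ 0 ∨ β i ≠ 0 := by
    intro i
    by_contra hcon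
    push Not at hcon
    have : Nontrivial (Fin (h + h)) := Fin.nontrivial_iff_two_le.mpr (by omega)
    obtain ⟨j, hj⟩ := exists_ne i
    exact hc i j hj.symm (by rw [hcon.1, hcon.2]; ring)
  choose s hs hun using fun i => exists_scale v (hab i)
  have hdeg : (C u₀ * ∏ i, (C (α i) * X + C (β i)) : K[X]).natDegree ≤ h + h := by
    simpa using natDegree_prod_lin_le Finset.univ u₀ α β
  refine ⟨u₀ * ∏ i, (s i)⁻¹, fun i => s i * α i, fun i => s i * β i, hdeg,
    mul_ne_zero hu (prod_ne_zero_iff.mpr fun i _ => inv_ne_zero (hs i)), hun, ?_, 1, s,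
    one_ne_zero, hs, fun i j => by ring⟩
  have : (C (u₀ * ∏ i, (s i)⁻¹) * ∏ i, (C (s i * α i) * X + C (s i * β i)) : K[X]) =
      C u₀ * ∏ i, (C (α i) * X + C (β i)) := by
    rw [C_mul, mul_assoc, map_prod, ← Finset.prod_mul_distrib]
    congr 1
    refine Finset.prod_congr rfl fun i _ => ?_
    have h1 : (C (s i)⁻¹ * C (s i) : K[X]) = 1 := by
      rw [← C_mul, inv_mul_cancel₀ (hs i), C_1]
    rw [C_mul, C_mul]
    linear_combination (C (α i) * X + C (β i)) * h1
  rw [this]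
  exact Eqv.refl hdeg

theorem od_pow {x : K} (hx : x ≠ 0) (n : ℕ) : od v (x ^ n) = n * od v x := by
  induction n with
  | zero => rw [pow_zero, od_one]; simp
  | succ n ih =>
    rw [pow_succ, od_mul v (pow_ne_zero n hx) hx, ih]
    push_cast
    ring

theorem od_prod {ι : Type*} (s : Finset ι) (f : ι → K) (hf : ∀ i ∈ s, f i ≠ 0) :
    od v (∏ i ∈ s, f i) = ∑ i ∈ s, od v (f i) := by
  classical
  induction s using Finset.induction_on with
  | empty => simp [od_one]
  | insert a s ha ih =>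
    rw [prod_insert ha, sum_insert ha, od_mul v (hf a (mem_insert_self _ _))
      (prod_ne_zero_iff.mpr fun i hi => hf i (mem_insert_of_mem hi)),
      ih fun i hi => hf i (mem_insert_of_mem hi)]

theorem od_congr {x y : K} (hx : x ≠ 0) (hy : y ≠ 0) (h1 : absW v x = absW v y) :
    od v x = od v y := by
  rw [absW_eq v hx, absW_eq v hy] at h1
  have := zpow_right_injective₀ (by norm_num : (0 : ℝ) < 2) (by norm_num) h1
  omega

theorem unit_abs {a b : K} (h1 : max (v.valuation K a) (v.valuation K b) = 1) :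
    max (absW v a) (absW v b) = 1 := by
  have ha : absW v a ≤ 1 := (absW_le_one_iff v a).mpr ((le_max_left _ _).trans h1.le)
  have hb : absW v b ≤ 1 := (absW_le_one_iff v b).mpr ((le_max_right _ _).trans h1.le)
  rcases le_total (v.valuation K a) (v.valuation K b) with h2 | h2
  · rw [max_eq_right h2] at h1
    rw [(absW_eq_one_iff v b).mpr h1]
    exact max_eq_right ha
  · rw [max_eq_left h2] at h1
    rw [(absW_eq_one_iff v a).mpr h1]
    exact max_eq_left hb

section bound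

variable {g : ℕ} {F : K[X]} {c₀ : Fin (g + 1 + (g + 1)) → Fin (g + 1 + (g + 1)) → K} {u : K}
  {α β : Fin (g + 1 + (g + 1)) → K}

theorem minExp_le_SS (hg : 1 ≤ g) (hF : IsHyp g F) (hN : Nrm v (g + 1) F c₀ u α β)
    (hc : ∀ i j, i ≠ j → c₀ i j ≠ 0) {t : ℕ} (ht : v.valuation K (2 : K) = exp (-(t : ℤ))) :
    minExp g F v ≤ 4 * g * t + (4 * g + 2) + SS v α β := by
  classical
  obtain ⟨ϖ, hϖ0, hϖ1, hϖ⟩ := exists_unif v
  obtain ⟨z, hz⟩ : ∃ z, z = od v u := ⟨_, rfl⟩
  set l : K := ϖ ^ (-(z / 2)) with hl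
  have hl0 : l ≠ 0 := zpow_ne_zero _ hϖ0
  have hodl : od v l = -(z / 2) := by
    apply od_eq
    rw [hl, map_zpow₀, hϖ, ← exp_zsmul]
    congr 1
    simp
  have hw0 : l ^ 2 * u ≠ 0 := mul_ne_zero (pow_ne_zero 2 hl0) hN.hu
  have hodw : od v (l ^ 2 * u) = z - 2 * (z / 2) := by
    rw [od_mul v (pow_ne_zero 2 hl0) hN.hu, od_pow hl0, hodl, ← hz]
    push_cast
    ring
  have hdeg := hN.eqv.natDegree_le
  set F' : K[X] := C (l ^ 2 * u) * ∏ i, (C (α i) * X + C (β i)) with hF'
  have heqv : Eqv (g + 1) F F' := by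
    refine Eqv.trans hN.deg hN.eqv ⟨1, 0, 0, 1, l, by simp, hl0, ?_⟩
    rw [act_one _ _ hdeg, hF', C_mul, mul_assoc]
  have hna := absW_na v
  have hint : ∀ i, v.valuation K (F'.coeff i) ≤ 1 := by
    have e1 : F'.gaussNorm (absW v) 1 ≤ 1 := by
      rw [hF', gaussNorm_prod_lin hna, Finset.prod_congr rfl fun i _ => unit_abs (hN.unit i),
        Finset.prod_const_one, mul_one, absW_eq v hw0, hodw]
      apply zpow_le_one_of_nonpos₀ (by norm_num)
      omega
    intro i
    exact (absW_le_one_iff v _).mp ((coeff_le_gaussNorm F' i).trans e1)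
  obtain ⟨k, hk, -, hle⟩ := minExp_le hF v heqv hint ht
  have hcr := hN.cr_ne hc
  have e1 := abs_discN_prod_lin (absW v) hw0 α β hcr (by rw [Fintype.card_fin]; omega)
  rw [Fintype.card_fin, ← hF'] at e1
  have hd0 : discN (g + 1 + (g + 1)) F' ≠ 0 := by
    intro h0
    rw [h0, map_zero] at hk
    exact exp_ne_zero hk.symm
  have hp0 : ∀ i, ∏ j ∈ univ.erase i, (α i * β j - α j * β i) ≠ 0 := fun i =>
    prod_ne_zero_iff.mpr fun j hj => hcr i j (Finset.ne_of_mem_erase hj).symm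
  have hP0 : (∏ i, ∏ j ∈ univ.erase i, (α i * β j - α j * β i)) ≠ 0 :=
    prod_ne_zero_iff.mpr fun i _ => hp0 i
  have hU0 : (l ^ 2 * u) ^ (2 * (g + 1 + (g + 1) - 1)) ≠ 0 := pow_ne_zero _ hw0
  have e2 : absW v (discN (g + 1 + (g + 1)) F') =
      absW v ((l ^ 2 * u) ^ (2 * (g + 1 + (g + 1) - 1)) *
        ∏ i, ∏ j ∈ univ.erase i, (α i * β j - α j * β i)) := by
    rw [e1]
    symm
    rw [map_mul, map_pow, map_prod]
    congr 1
    exact Finset.prod_congr rfl fun i _ => map_prod _ _ _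
  have e3 := od_congr hd0 (mul_ne_zero hU0 hP0) e2
  rw [od_eq v hk, od_mul v hU0 hP0, od_pow hw0, hodw, od_prod _ _ fun i _ => hp0 i,
    Finset.sum_congr rfl fun i _ => od_prod _ _ fun j hj =>
      hcr i j (Finset.ne_of_mem_erase hj).symm] at e3
  have e4 : ∑ i, ∑ j ∈ univ.erase i, od v (α i * β j - α j * β i) = ((SS v α β : ℕ) : ℤ) := by
    unfold SS
    push_cast
    refine Finset.sum_congr rfl fun i _ => ?_
    rw [← Finset.add_sum_erase univ (fun j => ((od v (α i * β j - α j * β i)).toNat : ℤ))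
      (mem_univ i), sub_self, od_zero]
    simp only [Int.toNat_zero, Nat.cast_zero, zero_add]
    exact Finset.sum_congr rfl fun j _ => (Int.toNat_of_nonneg (hN.od_nonneg hc i j)).symm
  rw [e4] at e3
  have e5 : ((2 * (g + 1 + (g + 1) - 1) : ℕ) : ℤ) = 4 * g + 2 := by
    have : 2 * (g + 1 + (g + 1) - 1) = 4 * g + 2 := by omega
    rw [this]
    push_cast
    ring
  have h6 : z - 2 * (z / 2) ≤ 1 := by omega
  have h7 : (k : ℤ) ≤ 4 * g + 2 + (SS v α β : ℕ) := by
    rw [e3, e5]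
    nlinarith
  have h8 : k ≤ 4 * g + 2 + SS v α β := by exact_mod_cast h7
  omega

end bound

end Pool.Agent.Q128.HD
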