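import Pool.Agent.Q128.HD.Glo
import Pool.Agent.Q103.SDJ.Core

set_option autoImplicit false

/-!
# Configurations whose differences are composed of numbers with small digits: preparations
-/

namespace Pool.Agent.Q128.HD

open Polynomial Finset NumberField IsDedekindDomain WithZero Pool.Agent.W318 Pool.Agent.H691R3 Height
open Pool.Agent.TH905.HS (al be pol pol_eq pol_isHyp det_ne det_eq equal_of_good)
open Pool.Agent.W223.CV (cc ct)
open Pool.Agent.Q103.SDV (Bad)

/-! ### combinatorics -/

theorem card_dist {ι : Type*} [Fintype ι] [DecidableEq ι] (n : ℕ) (hn : Fintype.card ι = n) :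
    ∑ i : ι, ∑ j : ι, ∑ k : ι, ∑ l : ι, (if Dist i j k l then 1 else 0) =
      n * (n - 1) * (n - 2) * (n - 3) := by
  have h1 : ∀ i j k : ι, ∑ l : ι, (if Dist i j k l then 1 else 0) =
      if i ≠ j ∧ i ≠ k ∧ j ≠ k then n - 3 else 0 := by
    intro i j k
    by_cases h : i ≠ j ∧ i ≠ k ∧ j ≠ k
    · rw [if_pos h]
      obtain ⟨hij, hik, hjk⟩ := h
      rw [← Finset.sum_filter, Finset.sum_const, smul_eq_mul, mul_one]
      have e1 : univ.filter (fun l => Dist i j k l) = univ \ ({i, j, k} : Finset ι) := by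
        ext l
        simp only [Dist, mem_filter, mem_univ, true_and, mem_sdiff, mem_insert, mem_singleton,
          not_or]
        constructor
        · rintro ⟨-, -, h1, -, h2, h3⟩
          exact ⟨h1.symm, h2.symm, h3.symm⟩
        · rintro ⟨h1, h2, h3⟩
          exact ⟨hij, hik, fun h => h1 h.symm, hjk, fun h => h2 h.symm, fun h => h3 h.symm⟩
      rw [e1, card_sdiff_of_subset (subset_univ _), card_univ, hn,
        Finset.card_eq_three.mpr ⟨i, j, k, hij, hik, hjk, rfl⟩]
    · rw [if_neg h]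
      refine Finset.sum_eq_zero fun l _ => if_neg fun hd => h ⟨hd.1, hd.2.1, hd.2.2.2.1⟩
  have h2 : ∀ i j : ι, ∑ k : ι, (if i ≠ j ∧ i ≠ k ∧ j ≠ k then n - 3 else 0) =
      if i ≠ j then (n - 2) * (n - 3) else 0 := by
    intro i j
    by_cases hij : i ≠ j
    · rw [if_pos hij, ← Finset.sum_filter, Finset.sum_const, smul_eq_mul]
      congr 1
      have e1 : univ.filter (fun k => i ≠ j ∧ i ≠ k ∧ j ≠ k) = univ \ ({i, j} : Finset ι) := by
        ext k
        simp only [mem_filter, mem_univ, true_and, mem_sdiff, mem_insert, mem_singleton, not_or]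
        constructor
        · rintro ⟨-, h1, h2⟩
          exact ⟨h1.symm, h2.symm⟩
        · rintro ⟨h1, h2⟩
          exact ⟨hij, fun h => h1 h.symm, fun h => h2 h.symm⟩
      rw [e1, card_sdiff_of_subset (subset_univ _), card_univ, hn, Finset.card_pair hij]
    · rw [if_neg hij]
      exact Finset.sum_eq_zero fun k _ => if_neg fun h => hij h.1
  have h3 : ∀ i : ι, ∑ j : ι, (if i ≠ j then (n - 2) * (n - 3) else 0) =
      (n - 1) * ((n - 2) * (n - 3)) := by
    intro i
    rw [← Finset.sum_filter, Finset.sum_const, smul_eq_mul, Finset.filter_ne,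
      card_erase_of_mem (mem_univ i), card_univ, hn]
  calc _ = ∑ i : ι, ∑ j : ι, ∑ k : ι, (if i ≠ j ∧ i ≠ k ∧ j ≠ k then n - 3 else 0) :=
        Finset.sum_congr rfl fun i _ => Finset.sum_congr rfl fun j _ =>
          Finset.sum_congr rfl fun k _ => h1 i j k
    _ = ∑ i : ι, ∑ j : ι, (if i ≠ j then (n - 2) * (n - 3) else 0) :=
        Finset.sum_congr rfl fun i _ => Finset.sum_congr rfl fun j _ => h2 i j
    _ = ∑ _i : ι, (n - 1) * ((n - 2) * (n - 3)) := Finset.sum_congr rfl fun i _ => h3 i
    _ = _ := by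
        rw [Finset.sum_const, card_univ, hn, smul_eq_mul]
        ring

theorem dist_prod {M : Type*} [CommMonoid M] {m : ℕ} (f : Fin (m + 1) → Fin (m + 1) → M) (ρ : M)
    (hf : ∀ x y, x ≠ y → f x y = if x = 0 ∨ y = 0 then 1 else ρ) {i j k l : Fin (m + 1)}
    (hd : Dist i j k l) : f i j * f k l = f k i * f j l ∧ f i j * f k l = f i l * f j k := by
  obtain ⟨hij, hik, hil, hjk, hjl, hkl⟩ := hd
  rw [hf i j hij, hf k l hkl, hf k i hik.symm, hf j l hjl, hf i l hil, hf j k hjk]
  by_cases h1 : i = 0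
  · have h2 : j ≠ 0 := fun h => hij (h1.trans h.symm)
    have h3 : k ≠ 0 := fun h => hik (h1.trans h.symm)
    have h4 : l ≠ 0 := fun h => hil (h1.trans h.symm)
    simp [h1, h2, h3, h4]
  · by_cases h2 : j = 0
    · have h3 : k ≠ 0 := fun h => hjk (h2.trans h.symm)
      have h4 : l ≠ 0 := fun h => hjl (h2.trans h.symm)
      simp [h1, h2, h3, h4]
    · by_cases h3 : k = 0
      · have h4 : l ≠ 0 := fun h => hkl (h3.trans h.symm)
        simp [h1, h2, h3, h4]
      · by_cases h4 : l = 0 <;> simp [h1, h2, h3, h4]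

theorem dist_sum {m : ℕ} (f : Fin (m + 1) → Fin (m + 1) → ℕ) (ρ : ℕ)
    (hf : ∀ x y, x ≠ y → f x y = if x = 0 ∨ y = 0 then 0 else ρ) {i j k l : Fin (m + 1)}
    (hd : Dist i j k l) : f i j + f k l = f k i + f j l ∧ f i j + f k l = f i l + f j k := by
  have h := dist_prod (M := Multiplicative ℕ) (fun x y => Multiplicative.ofAdd (f x y))
    (Multiplicative.ofAdd ρ) (fun x y hxy => by
      rw [hf x y hxy]
      split_ifs <;> rfl) hd
  exact ⟨Multiplicative.ofAdd.injective h.1, Multiplicative.ofAdd.injective h.2⟩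

/-- a function of the pairs that is not constant is not constant on the sides of a triangle -/
theorem exists_triangle {m : ℕ} (hm : 5 ≤ m) (f : Fin m → Fin m → ℕ)
    (h : ∃ i j k l, i ≠ j ∧ k ≠ l ∧ f i j ≠ f k l) :
    ∃ x y z : Fin m, x ≠ y ∧ x ≠ z ∧ y ≠ z ∧ ¬ (f y z = f x z ∧ f x z = f x y) := by
  by_contra hcon
  push Not at hcon
  obtain ⟨i, j, k, l, hij, hkl, hne⟩ := h
  have h1 : ∀ x y z : Fin m, x ≠ y → x ≠ z → y ≠ z → f y z = f x z := fun x y z a b c =>
    (hcon x y z a b c).1
  have h2 : ∀ x y z : Fin m, x ≠ y → x ≠ z → f x z = f x y := by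
    intro x y z a b
    by_cases hyz : y = z
    · rw [hyz]
    · exact (hcon x y z a b hyz).2
  obtain ⟨p, hp⟩ : ∃ p : Fin m, p ∉ ({i, j, k, l} : Finset (Fin m)) := by
    by_contra hc
    push Not at hc
    have h3 : (univ : Finset (Fin m)) ⊆ {i, j, k, l} := fun p _ => hc p
    have h4 := card_le_card h3
    rw [card_univ, Fintype.card_fin] at h4
    have h5 : ({i, j, k, l} : Finset (Fin m)).card ≤ 4 := Finset.card_le_four
    omega
  simp only [mem_insert, mem_singleton, not_or] at hp
  obtain ⟨pi, pj, pk, pl⟩ := hp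
  apply hne
  rw [h1 p i j pi pj hij, h2 p l j pl pj, ← h1 p k l pk pl hkl]

variable {K : Type} [Field K] [NumberField K]

/-! ### the primes of bad reduction -/

theorem cross_val {m : ℕ} (v : HeightOneSpectrum (𝓞 K)) (a : Fin m → K) (ρ : ℤᵐ⁰)
    (h : ∀ i j : Fin m, i ≠ j → v.valuation K (a i - a j) = ρ) (x y : Fin (m + 1)) (hxy : x ≠ y) :
    v.valuation K (al K m x * be a y - al K m y * be a x) = if x = 0 ∨ y = 0 then 1 else ρ := by
  rw [det_eq]
  revert hxy
  refine Fin.cases ?_ (fun i' => ?_) x <;> refine Fin.cases ?_ (fun j' => ?_) y <;> intro hxy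
  · exact absurd rfl hxy
  · simp
  · simp
  · rw [if_neg (by simp)]
    simp only [Fin.cases_succ]
    exact h i' j' fun hh => hxy (congrArg Fin.succ hh)

/-- a prime not above two at which the valuations of the cross ratio are not all equal is bad -/
theorem bad_of_bad {g : ℕ} (hg : 2 ≤ g) {m : ℕ} (hm : m = 2 * g + 1) {d : K} (hd : d ≠ 0)
    {a : Fin m → K} (ha : Function.Injective a) (v : HeightOneSpectrum (𝓞 K))
    (h2 : v.valuation K (2 : K) = 1) {i j k l : Fin (m + 1)} (hD : Dist i j k l)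
    (P : Fin 3 → 𝓞 K) (μ : K) (hμ : μ ≠ 0)
    (hP : ∀ r, ![(al K m i * be a j - al K m j * be a i) * (al K m k * be a l - al K m l * be a k),
      (al K m k * be a i - al K m i * be a k) * (al K m j * be a l - al K m l * be a j),
      (al K m i * be a l - al K m l * be a i) * (al K m j * be a k - al K m k * be a j)] r =
      μ * (P r : K)) (hb : Bad P v) : minExp g (pol d a) v ≠ 0 := by
  intro h0
  have heq := equal_of_good hg hm hd ha v h2 h0
  have hρ : ∀ i' j' : Fin m, i' ≠ j' → v.valuation K (a i' - a j') =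
      v.valuation K (a ⟨0, by omega⟩ - a ⟨1, by omega⟩) := fun i' j' hij =>
    heq i' j' _ _ hij (by simp [Fin.ext_iff])
  have h3 := dist_prod (fun x y => v.valuation K (al K m x * be a y - al K m y * be a x)) _
    (cross_val v a _ hρ) hD
  obtain ⟨r, r', hne⟩ := hb
  apply hne
  have hvμ : v.valuation K μ ≠ 0 := (Valuation.ne_zero_iff _).mpr hμ
  have e0 := congrArg (v.valuation K) (hP 0)
  have e1 := congrArg (v.valuation K) (hP 1)
  have e2 := congrArg (v.valuation K) (hP 2)
  change v.valuation K (_ * _) = _ at e0 e1 e2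
  rw [map_mul, map_mul] at e0 e1 e2
  have f01 : v.valuation K (P 0 : K) = v.valuation K (P 1 : K) := by
    apply mul_left_cancel₀ hvμ
    rw [← e0, ← e1]
    exact h3.1
  have f02 : v.valuation K (P 0 : K) = v.valuation K (P 2 : K) := by
    apply mul_left_cancel₀ hvμ
    rw [← e0, ← e2]
    exact h3.2
  have f : ∀ r, v.valuation K (P r : K) = v.valuation K (P 0 : K) := by
    intro r
    fin_cases r
    · rfl
    · exact f01.symm
    · exact f02.symm
  rw [f r, f r']

/-- the radical of the cross ratio is at most `M_C` times a power of two -/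
theorem cc_le {g : ℕ} (hg : 2 ≤ g) {m : ℕ} (hm : m = 2 * g + 1) {d : K} (hd : d ≠ 0)
    {a : Fin m → K} (ha : Function.Injective a) {i j k l : Fin (m + 1)} (hD : Dist i j k l)
    (P : Fin 3 → 𝓞 K) (hP0 : ∀ r, P r ≠ 0) (μ : K) (hμ : μ ≠ 0)
    (hP : ∀ r, ![(al K m i * be a j - al K m j * be a i) * (al K m k * be a l - al K m l * be a k),
      (al K m k * be a i - al K m i * be a k) * (al K m j * be a l - al K m l * be a j),
      (al K m i * be a l - al K m l * be a i) * (al K m j * be a k - al K m k * be a j)] r =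
      μ * (P r : K)) :
    cc ∅ (Bad P) ≤ Real.log (badNorm g (pol d a)) + Module.finrank ℚ K * Real.log 2 := by
  classical
  choose t ht using fun v : HeightOneSpectrum (𝓞 K) => exists_two_exp v
  have hfin := Pool.Agent.Q103.SDV.bad_finite P hP0
  have hF := pol_isHyp hm hd ha
  set B := hfin.toFinset with hB
  have h1 : cc ∅ (Bad P) = ∑ v ∈ B, Real.log (Nv v) := by
    unfold cc
    rw [finsum_eq_sum_of_support_subset (s := B)]
    · refine Finset.sum_congr rfl fun v hv => ?_
      unfold ct
      rw [if_pos ⟨by simp, by simpa [hB] using hv⟩]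
      rfl
    · intro v hv
      rw [Function.mem_support] at hv
      unfold ct at hv
      rw [Finset.mem_coe, hB, Set.Finite.mem_toFinset]
      by_contra hcon
      exact hv (if_neg fun h => hcon h.2)
  rw [h1, log_badNorm hF]
  have h2 := two_sum_le t ht (B.filter fun v => t v ≠ 0)
  have h3 : ∑ v ∈ B.filter (fun v => t v ≠ 0), Real.log (Nv v) ≤
      ∑ v ∈ B.filter (fun v => t v ≠ 0), (t v : ℝ) * Real.log (Nv v) := by
    refine Finset.sum_le_sum fun v hv => ?_
    have h4 : t v ≠ 0 := (mem_filter.mp hv).2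
    have h5 : (1 : ℝ) ≤ t v := by exact_mod_cast Nat.one_le_iff_ne_zero.mpr h4
    have := log_Nv_pos v
    nlinarith
  have h4 : ∑ v ∈ B.filter (fun v => ¬ t v ≠ 0), Real.log (Nv v) ≤
      ∑ v ∈ (finite_bad hF).toFinset, Real.log (Nv v) := by
    refine Finset.sum_le_sum_of_subset_of_nonneg (fun v hv => ?_) fun v _ _ => (log_Nv_pos v).le
    rw [mem_filter] at hv
    rw [Set.Finite.mem_toFinset]
    have h5 : t v = 0 := by
      by_contra hc
      exact hv.2 hc
    have h6 : v.valuation K (2 : K) = 1 := by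
      rw [ht v, h5]
      simp
    exact bad_of_bad hg hm hd ha v h6 hD P μ hμ hP (by
      have := hv.1
      rw [hB, Set.Finite.mem_toFinset] at this
      exact this)
  rw [← Finset.sum_filter_add_sum_filter_not B (fun v => t v ≠ 0)]
  linarith

end Pool.Agent.Q128.HD
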