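import Mathlib
import Pool.Agent.Q128.SDF.Sieve

/-!
# Many `s` such that all `N / i * s - 1` are squarefree
-/

set_option autoImplicit false

namespace Pool.Agent.Q128.HD

open Finset

/-- the coefficients `N / (i + 1)` with `N = ((8 g)!) ^ 2` -/
def co (g i : ℕ) : ℕ := (8 * g).factorial * ((8 * g).factorial / (i + 1))

theorem co_mul {g i : ℕ} (hi : i < 2 * g) : (i + 1) * co g i = (8 * g).factorial ^ 2 := by
  have h1 : i + 1 ∣ (8 * g).factorial := Nat.dvd_factorial (by omega) (by omega)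
  unfold co
  rw [mul_left_comm, Nat.mul_div_cancel' h1]
  ring

theorem co_pos {g i : ℕ} (hi : i < 2 * g) : 0 < co g i := by
  have h1 := co_mul hi
  have h2 : 0 < (8 * g).factorial ^ 2 := pow_pos (Nat.factorial_pos _) _
  rw [← h1] at h2
  exact Nat.pos_of_mul_pos_left h2

theorem co_le {g i : ℕ} (hi : i < 2 * g) : co g i ≤ (8 * g).factorial ^ 2 := by
  rw [← co_mul hi]
  nlinarith [co_pos hi]

theorem dvd_co {g i n : ℕ} (hn : 0 < n) (hn' : n ≤ 8 * g) : n ∣ co g i :=
  Dvd.dvd.mul_right (Nat.dvd_factorial hn hn') _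

theorem card_co (g i M n : ℕ) (hn : 0 < n) (hc : Nat.Coprime (co g i) (n ^ 2)) :
    (((range M).filter fun s => n ^ 2 ∣ co g i * (s + 1) - 1).card : ℝ) ≤
      (M : ℝ) * (1 / (n ^ 2 : ℕ)) + 1 := by
  rw [mul_one_div]
  apply Pool.Agent.Q128.SDF.card_class M (n ^ 2) _ (filter_subset _ _)
  intro x hx y hy
  rw [mem_filter] at hx hy
  rcases Nat.eq_zero_or_pos (co g i) with h0 | h0
  · rw [h0, Nat.coprime_zero_left] at hc
    rw [hc]
    exact Nat.modEq_one
  · have h1 : co g i * (x + 1) ≡ co g i * (y + 1) [MOD n ^ 2] := by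
      have h2 : co g i * (x + 1) - 1 ≡ co g i * (y + 1) - 1 [MOD n ^ 2] :=
        ((Nat.modEq_zero_iff_dvd).2 hx.2).trans ((Nat.modEq_zero_iff_dvd).2 hy.2).symm
      have h3 := Nat.ModEq.add_right 1 h2
      rwa [Nat.sub_add_cancel (Nat.mul_pos h0 (Nat.succ_pos _)),
        Nat.sub_add_cancel (Nat.mul_pos h0 (Nat.succ_pos _))] at h3
    have h2 := Nat.ModEq.cancel_left_of_coprime (by rwa [Nat.coprime_comm] at hc) h1
    exact Nat.ModEq.add_right_cancel' 1 h2

theorem sum_inv' (a R : ℕ) (ha : 0 < a) :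
    ∑ n ∈ Finset.Ico (a + 1) (a + 1 + R), (1 : ℝ) / (n ^ 2 : ℕ) ≤ 1 / a - 1 / (a + R) := by
  have ha' : (0 : ℝ) < a := by exact_mod_cast ha
  induction R with
  | zero => simp
  | succ R ih =>
    rw [show a + 1 + (R + 1) = (a + 1 + R) + 1 from rfl, Finset.sum_Ico_succ_top (by omega)]
    have h : (1 : ℝ) / ((a + 1 + R) ^ 2 : ℕ) ≤ 1 / (a + R) - 1 / (a + (R + 1 : ℕ)) := by
      push_cast
      rw [div_sub_div _ _ (by positivity) (by positivity), div_le_div_iff₀ (by positivity)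
        (by positivity)]
      nlinarith [(Nat.cast_nonneg R : (0 : ℝ) ≤ R)]
    linarith

theorem not_sqfree {g i s : ℕ} (hi : i < 2 * g) (h : ¬ Squarefree (co g i * (s + 1) - 1)) :
    ∃ n, 8 * g + 1 ≤ n ∧ n ^ 2 ≤ (8 * g).factorial ^ 2 * (s + 1) ∧
      n ^ 2 ∣ co g i * (s + 1) - 1 ∧ Nat.Coprime (co g i) (n ^ 2) := by
  have hc := co_pos hi
  have h1 : 1 ≤ co g i * (s + 1) := Nat.mul_pos hc (Nat.succ_pos _)
  have h2 : 2 ≤ co g i := by
    have h3 : 2 ∣ co g i := dvd_co (by norm_num) (by omega)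
    exact Nat.le_of_dvd hc h3
  have hpos : 0 < co g i * (s + 1) - 1 := by
    have : 2 ≤ co g i * (s + 1) := by nlinarith
    omega
  rw [Nat.squarefree_iff_prime_squarefree] at h
  push Not at h
  obtain ⟨p, hp, hd⟩ := h
  have hp1 : ¬ p ∣ co g i := by
    intro h3
    have h4 : p ∣ co g i * (s + 1) - 1 := (Dvd.intro _ rfl).trans hd
    have h5 : p ∣ co g i * (s + 1) := Dvd.dvd.mul_right h3 _
    have h6 := (Nat.dvd_sub h5 h4)
    have h7 : co g i * (s + 1) - (co g i * (s + 1) - 1) = 1 := by omega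
    rw [h7] at h6
    exact hp.one_lt.ne' (Nat.dvd_one.mp h6)
  refine ⟨p, ?_, ?_, ?_, ?_⟩
  · by_contra hcon
    exact hp1 (dvd_co hp.pos (by omega))
  · rw [pow_two p]
    have h3 := Nat.le_of_dvd hpos hd
    have h4 : co g i * (s + 1) ≤ (8 * g).factorial ^ 2 * (s + 1) :=
      Nat.mul_le_mul_right _ (co_le hi)
    omega
  · rw [pow_two p]
    exact hd
  · apply Nat.Coprime.pow_right
    rw [Nat.coprime_comm]
    exact (Nat.Prime.coprime_iff_not_dvd hp).2 hp1

/-- at least half of the numbers up to a large bound are good -/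
theorem many_s (g : ℕ) (hg : 1 ≤ g) (T : ℝ) : ∃ M₀ : ℕ, ∀ M : ℕ, M₀ ≤ M → ∃ s : Finset ℕ,
    (M : ℝ) / 2 ≤ s.card ∧ ∀ x ∈ s, T ≤ x ∧ x ≤ M ∧
      ∀ i < 2 * g, Squarefree (co g i * x - 1) := by
  classical
  obtain ⟨N, hN⟩ : ∃ N, N = (8 * g).factorial ^ 2 := ⟨_, rfl⟩
  have hN1 : 1 ≤ N := by rw [hN]; exact Nat.pos_of_ne_zero (by positivity)
  obtain ⟨q, hq⟩ : ∃ q, q = 8 * (2 * g) + 1 := ⟨_, rfl⟩
  refine ⟨q * q * N + 8 * (⌈|T|⌉₊ + 1), ?_⟩
  intro M hM
  obtain ⟨R, hR⟩ : ∃ R, R = Nat.sqrt (N * M) := ⟨_, rfl⟩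
  have hR1 : R * R ≤ N * M := by rw [hR]; exact Nat.sqrt_le _
  have hR2 : N * M < (R + 1) * (R + 1) := by rw [hR]; exact Nat.lt_succ_sqrt _
  have hsub : ((range M).filter fun s => ¬ ∀ i < 2 * g, Squarefree (co g i * (s + 1) - 1)) ⊆
      (range (2 * g)).biUnion fun i => (Finset.Ico (8 * g + 1) (8 * g + 1 + R)).biUnion fun n =>
        ((range M).filter fun s => n ^ 2 ∣ co g i * (s + 1) - 1 ∧
          Nat.Coprime (co g i) (n ^ 2)) := by
    intro s hs
    rw [mem_filter, mem_range] at hs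
    obtain ⟨hs1, hs2⟩ := hs
    push Not at hs2
    obtain ⟨i, hi, hs2⟩ := hs2
    obtain ⟨n, h1, h2, h3, h4⟩ := not_sqfree hi hs2
    rw [mem_biUnion]
    refine ⟨i, mem_range.mpr hi, ?_⟩
    rw [mem_biUnion]
    refine ⟨n, ?_, ?_⟩
    · rw [Finset.mem_Ico]
      refine ⟨h1, ?_⟩
      have h5 : n ^ 2 ≤ N * M := by
        rw [hN]
        exact h2.trans (Nat.mul_le_mul_left _ hs1)
      have h6 : n ≤ R := by
        rw [hR]
        exact Nat.le_sqrt.mpr (by rw [← pow_two]; exact h5)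
      omega
    · rw [mem_filter, mem_range]
      exact ⟨hs1, h3, h4⟩
  have hgR : (1 : ℝ) ≤ g := by exact_mod_cast hg
  have hbad : (((range M).filter fun s => ¬ ∀ i < 2 * g,
      Squarefree (co g i * (s + 1) - 1)).card : ℝ) ≤ M / 4 + 2 * g * R := by
    have h1 := (card_le_card hsub).trans (card_biUnion_le.trans
      (Finset.sum_le_sum fun i _ => card_biUnion_le))
    refine (Nat.cast_le.2 h1).trans ?_
    push_cast
    have h2 : ∀ i ∈ range (2 * g), (∑ n ∈ Finset.Ico (8 * g + 1) (8 * g + 1 + R),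
        (((range M).filter fun s => n ^ 2 ∣ co g i * (s + 1) - 1 ∧
          Nat.Coprime (co g i) (n ^ 2)).card : ℝ)) ≤ M * (1 / (8 * g)) + R := by
      intro i _
      have h3 : ∀ n ∈ Finset.Ico (8 * g + 1) (8 * g + 1 + R),
          (((range M).filter fun s => n ^ 2 ∣ co g i * (s + 1) - 1 ∧
            Nat.Coprime (co g i) (n ^ 2)).card : ℝ) ≤ (M : ℝ) * (1 / (n ^ 2 : ℕ)) + 1 := by
        intro n hn
        rw [Finset.mem_Ico] at hn
        by_cases hc : Nat.Coprime (co g i) (n ^ 2)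
        · refine le_trans ?_ (card_co g i M n (by omega) hc)
          apply Nat.cast_le.2
          apply card_le_card
          intro s hs
          rw [mem_filter] at hs ⊢
          exact ⟨hs.1, hs.2.1⟩
        · rw [filter_eq_empty_iff.2 fun s _ h => hc h.2, card_empty]
          push_cast
          positivity
      refine (Finset.sum_le_sum h3).trans ?_
      rw [sum_add_distrib, ← mul_sum]
      have h4 := sum_inv' (8 * g) R (by omega)
      have h5 : ∑ n ∈ Finset.Ico (8 * g + 1) (8 * g + 1 + R), (1 : ℝ) = R := by simp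
      rw [h5]
      have h6 : ∑ n ∈ Finset.Ico (8 * g + 1) (8 * g + 1 + R), (1 : ℝ) / (n ^ 2 : ℕ) ≤
          1 / (8 * g) := by
        refine h4.trans ?_
        push_cast
        have : (0 : ℝ) ≤ 1 / (8 * g + R) := by positivity
        linarith
      have hM0 : (0 : ℝ) ≤ M := Nat.cast_nonneg _
      nlinarith
    refine (Finset.sum_le_sum h2).trans ?_
    rw [sum_const, card_range, nsmul_eq_mul]
    push_cast
    rw [mul_add, ← mul_assoc, mul_right_comm]
    have h3 : 2 * (g : ℝ) * (1 / (8 * g)) * M = M / 4 := by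
      field_simp
      ring
    rw [h3]
  have hqR : q * R ≤ M := by
    by_contra hcon
    rw [not_le] at hcon
    have h1 : M * M < q * R * (q * R) := Nat.mul_lt_mul'' hcon hcon
    have h2 : q * R * (q * R) ≤ q * q * N * M := by
      calc q * R * (q * R) = q * q * (R * R) := by ring
        _ ≤ q * q * (N * M) := Nat.mul_le_mul_left _ hR1
        _ = _ := by ring
    have h3 : q * q * N * M ≤ M * M := Nat.mul_le_mul_right _ (by omega)
    omega
  have hqR' : 8 * (2 * (g : ℝ) * R) ≤ M := by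
    have h1 : 8 * (2 * g * R) ≤ M := by
      refine le_trans ?_ hqR
      rw [hq]
      nlinarith
    exact_mod_cast h1
  have hall : ((range M).filter fun s => ∀ i < 2 * g, Squarefree (co g i * (s + 1) - 1)).card +
      ((range M).filter fun s => ¬ ∀ i < 2 * g, Squarefree (co g i * (s + 1) - 1)).card = M := by
    rw [card_filter_add_card_filter_not, card_range]
  have hall' : (((range M).filter fun s => ∀ i < 2 * g,
      Squarefree (co g i * (s + 1) - 1)).card : ℝ) +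
      (((range M).filter fun s => ¬ ∀ i < 2 * g,
        Squarefree (co g i * (s + 1) - 1)).card : ℝ) = M := by
    exact_mod_cast hall
  obtain ⟨s0, hs0⟩ : ∃ s0, s0 = (range M).filter fun s => ∀ i < 2 * g,
    Squarefree (co g i * (s + 1) - 1) := ⟨_, rfl⟩
  obtain ⟨s1, hs1⟩ : ∃ s1, s1 = s0.image fun s => s + 1 := ⟨_, rfl⟩
  have hc1 : s1.card = s0.card := by
    rw [hs1]
    apply Finset.card_image_of_injective
    intro x y hxy
    have : x + 1 = y + 1 := hxy
    omega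
  obtain ⟨s2, hs2⟩ : ∃ s2, s2 = s1 \ Finset.range ⌈|T|⌉₊ := ⟨_, rfl⟩
  have hc2 : s1.card ≤ s2.card + ⌈|T|⌉₊ := by
    have h3 := Finset.le_card_sdiff (Finset.range ⌈|T|⌉₊) s1
    rw [Finset.card_range, ← hs2] at h3
    omega
  refine ⟨s2, ?_, ?_⟩
  · have h4 : (s1.card : ℝ) ≤ s2.card + ⌈|T|⌉₊ := by exact_mod_cast hc2
    have h5 : 8 * (⌈|T|⌉₊ : ℝ) ≤ M := by
      have : 8 * ⌈|T|⌉₊ ≤ M := by omega
      exact_mod_cast this
    rw [hc1, hs0] at h4
    rw [hs0] at hc1
    linarith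
  · intro x hx
    rw [hs2, Finset.mem_sdiff, Finset.mem_range, not_lt, hs1, Finset.mem_image] at hx
    obtain ⟨⟨y, hy, rfl⟩, hB⟩ := hx
    rw [hs0, Finset.mem_filter, Finset.mem_range] at hy
    exact ⟨(le_abs_self T).trans (Nat.ceil_le.1 hB), hy.1, hy.2⟩

end Pool.Agent.Q128.HD
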