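import Mathlib
import Pool.Agent.Q128.SDF.Fam
import Pool.Agent.Q128.HD.Sieve

/-!
# The configurations `∞, N s, 1, ..., 2 g`
-/

set_option autoImplicit false

namespace Pool.Agent.Q128.HD

open Polynomial NumberField Finset

/-- the polynomials `N / (i + 1) X - 1` -/
noncomputable def Fa (g : ℕ) (i : Fin (2 * g)) : (𝓞 ℚ)[X] := C ((co g i : ℕ) : 𝓞 ℚ) * X - 1

/-- the small factors of the differences -/
def ca (g : ℕ) : Fin (2 * g + 1) → Fin (2 * g + 1) → 𝓞 ℚ :=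
  Fin.cons (Fin.cons 1 fun j => ((j : ℕ) : 𝓞 ℚ) + 1)
    fun i => Fin.cons (-(((i : ℕ) : 𝓞 ℚ) + 1)) fun j => ((i : ℕ) : 𝓞 ℚ) - ((j : ℕ) : 𝓞 ℚ)

/-- the exponents -/
def ea (g : ℕ) : Fin (2 * g + 1) → Fin (2 * g + 1) → Fin (2 * g) → ℕ :=
  Fin.cons (Fin.cons 0 fun j s => if s = j then 1 else 0)
    fun i => Fin.cons (fun s => if s = i then 1 else 0) fun _ _ => 0

/-- the points `N s, 1, ..., 2 g` -/
def pa (g : ℕ) (s : ℕ) : Fin (2 * g + 1) → ℚ :=
  Fin.cons ((((8 * g).factorial ^ 2 * s : ℕ)) : ℚ) fun i => ((i : ℕ) : ℚ) + 1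

theorem eval_Fa (g : ℕ) (i : Fin (2 * g)) (s : ℕ) :
    (Fa g i).eval (s : 𝓞 ℚ) = ((co g i : ℕ) : 𝓞 ℚ) * s - 1 := by
  simp [Fa]

theorem natDegree_Fa (g : ℕ) (i : Fin (2 * g)) : (Fa g i).natDegree = 1 := by
  unfold Fa
  rw [← C_1, sub_eq_add_neg, ← C_neg]
  apply natDegree_linear
  exact_mod_cast (co_pos i.2).ne'

theorem leadingCoeff_Fa (g : ℕ) (i : Fin (2 * g)) : (Fa g i).leadingCoeff = ((co g i : ℕ) : 𝓞 ℚ) := by
  unfold Fa
  rw [← C_1, sub_eq_add_neg, ← C_neg]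
  apply leadingCoeff_linear
  exact_mod_cast (co_pos i.2).ne'

theorem difference (g s : ℕ) : ∀ i j : Fin (2 * g + 1), i ≠ j → pa g s i - pa g s j =
    1 * ((ca g i j * ∏ r, (Fa g r).eval (s : 𝓞 ℚ) ^ ea g i j r : 𝓞 ℚ) : ℚ) := by
  have h0 : ∀ j : Fin (2 * g), (∏ r, (Fa g r).eval (s : 𝓞 ℚ) ^ (if r = j then 1 else 0)) =
      ((co g j : ℕ) : 𝓞 ℚ) * s - 1 := by
    intro j
    rw [Finset.prod_eq_single j]
    · rw [if_pos rfl, pow_one, eval_Fa]
    · intro b _ hb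
      rw [if_neg hb, pow_zero]
    · intro h
      exact absurd (mem_univ _) h
  have hN : ∀ j : Fin (2 * g), (((8 * g).factorial ^ 2 * s : ℕ) : ℚ) =
      (((j : ℕ) : ℚ) + 1) * ((co g j : ℕ) : ℚ) * s := by
    intro j
    rw [← co_mul j.2]
    push_cast
    ring
  intro i j hij
  induction i using Fin.cases with
  | zero =>
    induction j using Fin.cases with
    | zero => exact absurd rfl hij
    | succ j =>
      simp only [pa, ca, ea, Fin.cons_zero, Fin.cons_succ]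
      rw [h0 j, hN j]
      push_cast
      ring
  | succ i =>
    induction j using Fin.cases with
    | zero =>
      simp only [pa, ca, ea, Fin.cons_zero, Fin.cons_succ]
      rw [h0 i, hN i]
      push_cast
      ring
    | succ j =>
      simp only [pa, ca, ea, Fin.cons_succ, pow_zero, Finset.prod_const_one]
      push_cast
      ring

theorem injective_pa (g : ℕ) (hg : 1 ≤ g) (s : ℕ) (hs : 1 ≤ s) : Function.Injective (pa g s) := by
  have h1 : ∀ i : Fin (2 * g), ((i : ℕ) : ℚ) + 1 ≠ (((8 * g).factorial ^ 2 * s : ℕ) : ℚ) := by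
    intro i h
    have h2 : (i : ℕ) + 1 = (8 * g).factorial ^ 2 * s := by exact_mod_cast h
    have h3 := i.2
    have h4 : 8 * g ≤ (8 * g).factorial := Nat.self_le_factorial _
    have h5 : (8 * g).factorial ≤ (8 * g).factorial ^ 2 := Nat.le_self_pow (by norm_num) _
    nlinarith
  intro i j hij
  induction i using Fin.cases with
  | zero =>
    induction j using Fin.cases with
    | zero => rfl
    | succ j =>
      simp only [pa, Fin.cons_zero, Fin.cons_succ] at hij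
      exact absurd hij.symm (h1 j)
  | succ i =>
    induction j using Fin.cases with
    | zero =>
      simp only [pa, Fin.cons_zero, Fin.cons_succ] at hij
      exact absurd hij (h1 i)
    | succ j =>
      simp only [pa, Fin.cons_succ] at hij
      have h2 : (i : ℕ) = j := by exact_mod_cast add_right_cancel hij
      rw [Fin.ext h2]

theorem digit_le {g : ℕ} {i : Fin (2 * g)} {j : ℕ} (σ : ℚ →+* ℂ) :
    ‖σ ((Fa g i).coeff j : 𝓞 ℚ)‖ ≤ (((8 * g).factorial ^ 2 : ℕ) : ℝ) := by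
  have h1 : (1 : ℝ) ≤ (((8 * g).factorial ^ 2 : ℕ) : ℝ) := by
    exact_mod_cast Nat.pos_of_ne_zero (by positivity)
  unfold Fa
  rw [coeff_sub, coeff_C_mul, coeff_X, coeff_one]
  by_cases hj0 : j = 0
  · subst hj0
    simp only [one_ne_zero, if_false, if_true, mul_zero, zero_sub]
    simpa using h1
  · by_cases hj1 : j = 1
    · subst hj1
      simp only [one_ne_zero, if_false, if_true, mul_one, sub_zero]
      have h2 : (((co g i : ℕ) : 𝓞 ℚ) : ℚ) = ((co g i : ℕ) : ℚ) := by simp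
      rw [h2, map_natCast, Complex.norm_natCast]
      exact_mod_cast co_le i.2
    · rw [if_neg (Ne.symm hj1), if_neg hj0]
      simp only [mul_zero, sub_zero]
      simp

theorem last_le {g : ℕ} {i : Fin (2 * g)} (σ : ℚ →+* ℂ) :
    ‖σ ((Fa g i).coeff 0 : 𝓞 ℚ)‖ ≤ 1 := by
  unfold Fa
  simp

theorem first_ge {g : ℕ} {i : Fin (2 * g)} (σ : ℚ →+* ℂ) :
    1 ≤ ‖σ ((Fa g i).leadingCoeff : 𝓞 ℚ)‖ := by
  rw [leadingCoeff_Fa]
  have h2 : (((co g i : ℕ) : 𝓞 ℚ) : ℚ) = ((co g i : ℕ) : ℚ) := by simp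
  rw [h2, map_natCast, Complex.norm_natCast]
  exact_mod_cast co_pos i.2

theorem norm_rat_le {x : 𝓞 ℚ} {y : ℤ} (h : (x : ℚ) = y) {B : ℝ} (hB : |(y : ℝ)| ≤ B) (σ : ℚ →+* ℂ) :
    ‖σ (x : ℚ)‖ ≤ B := by
  rw [h, map_intCast, Complex.norm_intCast]
  exact hB

theorem ca_le (g : ℕ) (i j : Fin (2 * g + 1)) (hij : i ≠ j) (σ : ℚ →+* ℂ) :
    ‖σ (ca g i j : ℚ)‖ ≤ 2 * g := by
  induction i using Fin.cases with
  | zero =>
    induction j using Fin.cases with
    | zero => exact absurd rfl hij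
    | succ j =>
      simp only [ca, Fin.cons_zero, Fin.cons_succ]
      refine norm_rat_le (y := (j : ℤ) + 1) (by push_cast; simp) ?_ σ
      have h1 : ((j : ℕ) : ℝ) + 1 ≤ 2 * g := by exact_mod_cast j.2
      push_cast
      rw [abs_of_nonneg (by positivity)]
      exact h1
  | succ i =>
    have h1 : ((i : ℕ) : ℝ) + 1 ≤ 2 * g := by exact_mod_cast i.2
    have h1' : (0 : ℝ) ≤ (i : ℕ) := Nat.cast_nonneg _
    induction j using Fin.cases with
    | zero =>
      simp only [ca, Fin.cons_zero, Fin.cons_succ]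
      refine norm_rat_le (y := -((i : ℤ) + 1)) (by push_cast; simp) ?_ σ
      push_cast
      rw [abs_neg, abs_of_nonneg (by positivity)]
      exact h1
    | succ j =>
      have h2 : ((j : ℕ) : ℝ) + 1 ≤ 2 * g := by exact_mod_cast j.2
      have h2' : (0 : ℝ) ≤ (j : ℕ) := Nat.cast_nonneg _
      simp only [ca, Fin.cons_succ]
      refine norm_rat_le (y := (i : ℤ) - (j : ℤ)) (by push_cast; simp) ?_ σ
      push_cast
      rw [abs_le]
      constructor <;> linarith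

theorem ea_le (g : ℕ) (i j : Fin (2 * g + 1)) : ∑ s, ea g i j s ≤ 1 := by
  induction i using Fin.cases with
  | zero =>
    induction j using Fin.cases with
    | zero => simp [ea]
    | succ j => simp [ea]
  | succ i =>
    induction j using Fin.cases with
    | zero => simp [ea]
    | succ j => simp [ea]

theorem uneq_ea (g : ℕ) (hg : 1 ≤ g) (s : Fin (2 * g)) :
    ∃ i j k l, i ≠ j ∧ k ≠ l ∧ ea g i j s ≠ ea g k l s := by
  refine ⟨0, s.succ, Fin.succ ⟨0, by omega⟩, Fin.succ ⟨1, by omega⟩, (Fin.succ_ne_zero _).symm, ?_,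
    ?_⟩
  · intro h
    have := Fin.succ_injective _ h
    simp at this
  · simp only [ea, Fin.cons_zero, Fin.cons_succ, if_true]
    exact one_ne_zero

theorem coprime_Fa (g : ℕ) (s : ℕ) (i j : Fin (2 * g)) (hij : i ≠ j) :
    IsCoprime ((Fa g i).eval (s : 𝓞 ℚ)) ((Fa g j).eval (s : 𝓞 ℚ)) := by
  wlog hlt : i < j generalizing i j
  · exact (this j i hij.symm (lt_of_le_of_ne (not_lt.mp hlt) hij.symm)).symm
  rw [eval_Fa, eval_Fa]
  have hlt' : (i : ℕ) < j := hlt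
  obtain ⟨q, hq⟩ : ((j : ℕ) - i) ∣ co g i := dvd_co (by omega) (by have := j.2; omega)
  have hi := co_mul i.2
  have hj := co_mul j.2
  have e1 : ((i : ℕ) + 1) * (co g i : 𝓞 ℚ) = (((8 * g).factorial ^ 2 : ℕ) : 𝓞 ℚ) := by
    exact_mod_cast congrArg (Nat.cast : ℕ → 𝓞 ℚ) hi
  have e2 : ((j : ℕ) + 1) * (co g j : 𝓞 ℚ) = (((8 * g).factorial ^ 2 : ℕ) : 𝓞 ℚ) := by
    exact_mod_cast congrArg (Nat.cast : ℕ → 𝓞 ℚ) hj
  have e3 : (co g i : 𝓞 ℚ) = (((j : ℕ) : 𝓞 ℚ) - ((i : ℕ) : 𝓞 ℚ)) * q := by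
    rw [hq]
    push_cast [hlt'.le]
    ring
  refine ⟨q * s * ((i : ℕ) + 1) - 1, -(q * s * ((j : ℕ) + 1)), ?_⟩
  linear_combination (q * (s : 𝓞 ℚ) ^ 2) * e1 - (q * (s : 𝓞 ℚ) ^ 2) * e2 - (s : 𝓞 ℚ) * e3

theorem squarefree_Fa (g : ℕ) (s : ℕ) (hs : 1 ≤ s)
    (h : ∀ i < 2 * g, Squarefree (co g i * s - 1)) (S : Finset (Fin (2 * g))) :
    Squarefree (Ideal.span {∏ i ∈ S, (Fa g i).eval (s : 𝓞 ℚ)}) := by
  apply Pool.Agent.Q128.SDF.squarefree_span
  apply Finset.squarefree_prod_of_pairwise_isCoprime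
  · intro i _ j _ hij
    exact (coprime_Fa g s i j hij).isRelPrime
  · intro i _
    have h1 := Pool.Agent.Q128.SDF.squarefree_nat (h i i.2)
    rw [eval_Fa]
    have h2 : 1 ≤ co g i * s := Nat.mul_pos (co_pos i.2) hs
    push_cast [h2] at h1
    exact h1

end Pool.Agent.Q128.HD
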