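import Pool.Agent.Q128.HD.Main

set_option autoImplicit false

/-!
# Szpiro's inequality for the configurations with small digits
-/

namespace Pool.Agent.Q128.HD

open Polynomial Finset NumberField IsDedekindDomain WithZero Pool.Agent.W318 Pool.Agent.H691R3 Height
open Pool.Agent.TH905.HS (al be pol pol_eq pol_isHyp det_ne det_eq equal_of_good)
open Pool.Agent.W223.CV (cc ct)
open Pool.Agent.Q103.SDV (Bad)
open Pool.Agent.Q103.SDJ (Compo lN)
open Pool.Agent.Results.MP_a793bb_nt.SmallDigitPoints (Small point unequal)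

theorem one_le_badNorm {K : Type} [Field K] [NumberField K] {g : ℕ} {F : K[X]} (hF : IsHyp g F) :
    1 ≤ badNorm g F := by
  rw [badNorm_eq (finite_bad hF).toFinset fun v => by simp]
  exact Finset.one_le_prod'' fun v => one_le_absNorm v

theorem one_le_discNorm {K : Type} [Field K] [NumberField K] {g : ℕ} {F : K[X]} (hF : IsHyp g F) :
    1 ≤ discNorm g F := by
  rw [discNorm_eq (finite_bad hF).toFinset fun v hv => by simpa using hv]
  exact Finset.one_le_prod'' fun v => Nat.one_le_pow _ _ (one_le_absNorm v)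

theorem qh_nonneg {K : Type} [Field K] [NumberField K] {ι : Type*} [DecidableEq ι]
    (c : ι → ι → K) (i j k l : ι) : 0 ≤ qh c i j k l := by
  unfold qh
  split_ifs
  · exact logHeight_nonneg _
  · exact le_rfl

theorem sum_single4 {ι : Type*} [Fintype ι] [DecidableEq ι] (i₀ j₀ k₀ l₀ : ι) (x : ℝ) :
    ∑ i : ι, ∑ j : ι, ∑ k : ι, ∑ l : ι,
      (if i = i₀ then if j = j₀ then if k = k₀ then if l = l₀ then x else 0 else 0 else 0 else 0) =
      x := by
  rw [Finset.sum_eq_single i₀, Finset.sum_eq_single j₀, Finset.sum_eq_single k₀,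
    Finset.sum_eq_single l₀]
  · simp
  · intro b _ hb; simp [hb]
  · intro h; exact absurd (mem_univ _) h
  · intro b _ hb; simp [hb]
  · intro h; exact absurd (mem_univ _) h
  · intro b _ hb; simp [hb]
  · intro h; exact absurd (mem_univ _) h
  · intro b _ hb; simp [hb]
  · intro h; exact absurd (mem_univ _) h

/-- the general inequality for the curves with rational Weierstrass points -/
theorem general {K : Type} [Field K] [NumberField K] {g : ℕ} (hg : 2 ≤ g) {m : ℕ}
    (hm : m = 2 * g + 1) {d : K} (hd : d ≠ 0) {a : Fin m → K} (ha : Function.Injective a) :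
    2 * (((g : ℝ) + 1) * g) * Real.log (discNorm g (pol d a)) ≤
      2 * (((g : ℝ) + 1) * g) * ((4 * g + 2) * Real.log (badNorm g (pol d a)) +
        4 * g * (Module.finrank ℚ K * Real.log 2)) +
      ∑ i : Fin (m + 1), ∑ j : Fin (m + 1), ∑ k : Fin (m + 1), ∑ l : Fin (m + 1),
        qh (fun x y => al K m x * be a y - al K m y * be a x) i j k l := by
  have hm' : m = g + 1 + g := by omega
  subst hm'
  exact global_quad (by omega) (pol_isHyp hm hd ha) hd (al K (g + 1 + g)) (be a)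
    (fun i j hij => det_ne ha i j hij) (pol_eq d a)

theorem main (g : ℕ) (hg : 2 ≤ g) (D : ℕ) : ∃ δ : ℝ, 0 < δ ∧ ∃ T₀ : ℝ, 1 ≤ T₀ ∧
    ∀ T : ℝ, T₀ ≤ T → ∀ (K : Type) [Field K] [NumberField K] (m n : ℕ) (t : 𝓞 K)
      (F : Fin n → (𝓞 K)[X]) (κ : K) (a : Fin m → K) (c : Fin m → Fin m → 𝓞 K)
      (e : Fin m → Fin m → Fin n → ℕ) (S : Finset (Fin n)), m = 2 * g + 1 →
      Function.Injective a → κ ≠ 0 →
      (∀ i j, i ≠ j → a i - a j = κ * ((c i j * ∏ s, (F s).eval t ^ e i j s : 𝓞 K) : K)) →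
      (∀ σ : K →+* ℂ, T ≤ ‖σ t‖) → (∀ s, 0 < (F s).natDegree) → ∑ s, (F s).natDegree ≤ D →
      (∀ s j, ∀ σ : K →+* ℂ, ‖σ ((F s).coeff j)‖ ≤ T ^ δ) →
      (∀ s, ∀ σ : K →+* ℂ, T ^ (-δ) ≤ ‖σ (F s).leadingCoeff‖) →
      (∀ s, ∀ σ : K →+* ℂ, ‖σ ((F s).coeff 0)‖ ≤ 1) →
      (∀ s s', s ≠ s' → IsCoprime ((F s).eval t) ((F s').eval t)) →
      (∀ i j, i ≠ j → ∀ σ : K →+* ℂ, ‖σ (c i j)‖ ≤ T ^ δ) →
      (∀ i j, i ≠ j → ((∑ s, e i j s : ℕ) : ℝ) ≤ T ^ δ) →
      (∀ s, s ∈ S ↔ ∃ i j k l, i ≠ j ∧ k ≠ l ∧ e i j s ≠ e k l s) → S.Nonempty →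
      Squarefree (Ideal.span {∏ s ∈ S, (F s).eval t}) →
      ∀ d : K, d ≠ 0 →
        discNorm g (pol d a) ≤ badNorm g (pol d a) ^ (8 * g ^ 2 + 4 * g) := by
  obtain ⟨δ', hδ', T₁, hT₁, habc⟩ := Pool.Agent.Q103.SDJ.abc D (1 / 2) (by norm_num) (by norm_num)
  obtain ⟨δ, hδ⟩ : ∃ δ, δ = min (δ' / 2) (1 / 4) := ⟨_, rfl⟩
  have hδ0 : 0 < δ := by
    rw [hδ]
    exact lt_min (by linarith) (by norm_num)
  have hδ1 : 2 * δ ≤ δ' := by
    have := min_le_left (δ' / 2) (1 / 4)
    rw [← hδ] at this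
    linarith
  have hδ2 : 2 * δ ≤ 1 / 2 := by
    have := min_le_right (δ' / 2) (1 / 4)
    rw [← hδ] at this
    linarith
  obtain ⟨N, hN⟩ : ∃ N : ℝ, N = 2 * (((g : ℝ) + 1) * g) * (8 * g ^ 2 - 2) := ⟨_, rfl⟩
  obtain ⟨A, hA⟩ : ∃ A : ℝ, A = 2 * (2 * (((g : ℝ) + 1) * g) * (4 * g) + N) * Real.log 2 := ⟨_, rfl⟩
  refine ⟨δ, hδ0, max T₁ (max (2 ^ (1 / δ)) (Real.exp A)), hT₁.trans (le_max_left _ _), ?_⟩
  intro T hT K _ _ m n t F κ a c e S hm ha hκ h base two_digits number digits first last coprime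
    coefficients exponents hS hSne hsq d hd
  have hTT₁ : T₁ ≤ T := (le_max_left _ _).trans hT
  have hT2' : (2 : ℝ) ^ (1 / δ) ≤ T := (le_max_left _ _).trans ((le_max_right _ _).trans hT)
  have hTA : Real.exp A ≤ T := (le_max_right _ _).trans ((le_max_right _ _).trans hT)
  have hT1 : 1 ≤ T := hT₁.trans hTT₁
  have hT0 : 0 < T := by linarith
  have hT2 : 2 ≤ T ^ δ := by
    have h1 : ((2 : ℝ) ^ (1 / δ)) ^ δ = 2 := by
      rw [← Real.rpow_mul (by norm_num), one_div, inv_mul_cancel₀ hδ0.ne', Real.rpow_one]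
    rw [← h1]
    exact Real.rpow_le_rpow (by positivity) hT2' hδ0.le
  have hlogT : A ≤ Real.log T := by
    have := Real.log_le_log (Real.exp_pos _) hTA
    rwa [Real.log_exp] at this
  have hlogT0 : 0 ≤ Real.log T := Real.log_nonneg hT1
  have hd0 : (0 : ℝ) < Module.finrank ℚ K := by exact_mod_cast Module.finrank_pos
  have hlog2 : 0 < Real.log 2 := Real.log_pos one_lt_two
  have hgR : (2 : ℝ) ≤ g := by exact_mod_cast hg
  have hF := pol_isHyp hm hd ha
  obtain ⟨R, hR⟩ : ∃ R, R = Real.log (badNorm g (pol d a)) := ⟨_, rfl⟩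
  obtain ⟨k₂, hk₂⟩ : ∃ k₂, k₂ = Module.finrank ℚ K * Real.log 2 := ⟨_, rfl⟩
  have hquad : ∀ {i j k l : Fin (m + 1)}, Dist i j k l → _ := fun {i j k l} hD =>
    quad_case hg hm hδ0 hδ1 hT1 hT2 D t F hκ a c e ha h base two_digits number digits first last
      coprime coefficients exponents S (fun s hs => (hS s).mpr hs) hsq
      (fun P hP1 hP2 hP3 => habc T hTT₁ K t P hP1 hP2 hP3) hd hD (i := i) (j := j) (k := k) (l := l)
  set cr : Fin (m + 1) → Fin (m + 1) → K := fun x y => al K m x * be a y - al K m y * be a x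
    with hcr
  -- a cross ratio that is not small
  obtain ⟨s, hs⟩ := hSne
  obtain ⟨x, y, z, hxy, hxz, hyz, hne⟩ := exists_triangle (by omega : 5 ≤ m) (fun i j => e i j s)
    ((hS s).mp hs)
  have hD₀ : Dist (0 : Fin (m + 1)) x.succ y.succ z.succ :=
    ⟨(Fin.succ_ne_zero _).symm, (Fin.succ_ne_zero _).symm, (Fin.succ_ne_zero _).symm,
      fun h => hxy (Fin.succ_injective _ h), fun h => hxz (Fin.succ_injective _ h),
      fun h => hyz (Fin.succ_injective _ h)⟩
  have hgain : qh cr 0 x.succ y.succ z.succ + (1 - 1 / 2) * lN t ≤ R + k₂ := by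
    rw [hR, hk₂]
    rcases hquad hD₀ with h1 | ⟨h1, -⟩
    · exact h1
    · exfalso
      obtain ⟨h2, h3⟩ := h1 s
      simp only [ex, Fin.cases_zero, Fin.cases_succ] at h2 h3
      apply hne
      constructor
      · omega
      · omega
  have hlN : Module.finrank ℚ K * Real.log T ≤ lN t := by
    -- the base is large
    have ht0 : t ≠ 0 := by
      rintro rfl
      obtain ⟨σ⟩ : Nonempty (K →+* ℂ) := inferInstance
      have h1 := base σ
      simp at h1
      linarith
    unfold lN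
    rw [← Pool.Agent.Q103.SD.NF.log_norm t ht0, ← InfinitePlace.sum_mult_eq]
    push_cast
    rw [Finset.sum_mul]
    apply Finset.sum_le_sum
    intro w _
    apply mul_le_mul_of_nonneg_left _ (Nat.cast_nonneg _)
    apply Real.log_le_log (by linarith)
    rw [← InfinitePlace.norm_embedding_eq]
    exact base w.embedding
  have hlN0 : 0 ≤ lN t := le_trans (by positivity) hlN
  have hRk : (1 - 1 / 2) * lN t ≤ R + k₂ := by
    have := qh_nonneg cr 0 x.succ y.succ z.succ
    linarith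
  have hall : ∀ i j k l : Fin (m + 1), qh cr i j k l ≤
      ((if Dist i j k l then (1 : ℕ) else 0 : ℕ) : ℝ) * (R + k₂) -
        (if i = 0 then if j = x.succ then if k = y.succ then if l = z.succ then
          (1 - 1 / 2) * lN t else 0 else 0 else 0 else 0) := by
    intro i j k l
    by_cases h0 : i = 0 ∧ j = x.succ ∧ k = y.succ ∧ l = z.succ
    · obtain ⟨rfl, rfl, rfl, rfl⟩ := h0
      rw [if_pos rfl, if_pos rfl, if_pos rfl, if_pos rfl, if_pos hD₀]
      push_cast
      linarith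
    · have h1 : (if i = 0 then if j = x.succ then if k = y.succ then if l = z.succ then
          (1 - 1 / 2) * lN t else 0 else 0 else 0 else 0) = 0 := by
        split_ifs with h2 h3 h4 h5
        · exact absurd ⟨h2, h3, h4, h5⟩ h0
        all_goals rfl
      rw [h1, sub_zero]
      by_cases hD : Dist i j k l
      · rw [if_pos hD, Nat.cast_one, one_mul]
        rcases hquad hD with h2 | ⟨-, h2⟩
        · rw [hR, hk₂]
          linarith
        · refine h2.trans (le_trans ?_ hRk)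
          have h3 : Module.finrank ℚ K * (2 * δ * Real.log T) ≤
              Module.finrank ℚ K * (1 / 2 * Real.log T) := by gcongr
          linarith
      · rw [if_neg hD, Nat.cast_zero, zero_mul]
        unfold qh
        rw [if_neg hD]
  have hsum : ∑ i, ∑ j, ∑ k, ∑ l, qh cr i j k l ≤ N * (R + k₂) - (1 - 1 / 2) * lN t := by
    have h1 := Finset.sum_le_sum fun i (_ : i ∈ (univ : Finset (Fin (m + 1)))) =>
      Finset.sum_le_sum fun j (_ : j ∈ (univ : Finset (Fin (m + 1)))) =>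
      Finset.sum_le_sum fun k (_ : k ∈ (univ : Finset (Fin (m + 1)))) =>
      Finset.sum_le_sum fun l (_ : l ∈ (univ : Finset (Fin (m + 1)))) => hall i j k l
    refine h1.trans (le_of_eq ?_)
    simp only [Finset.sum_sub_distrib]
    rw [sum_single4]
    congr 1
    simp only [← Finset.sum_mul]
    congr 1
    have h2 := card_dist (ι := Fin (m + 1)) (m + 1) (by simp)
    have h3 : (∑ i : Fin (m + 1), ∑ j : Fin (m + 1), ∑ k : Fin (m + 1), ∑ l : Fin (m + 1),
        ((if Dist i j k l then (1 : ℕ) else 0 : ℕ) : ℝ)) =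
        (((m + 1) * (m + 1 - 1) * (m + 1 - 2) * (m + 1 - 3) : ℕ) : ℝ) := by
      rw [← h2]
      push_cast
      rfl
    rw [h3, hN]
    have e1 : m + 1 = 2 * g + 2 := by omega
    have e2 : m + 1 - 1 = 2 * g + 1 := by omega
    have e3 : m + 1 - 2 = 2 * g := by omega
    have e4 : m + 1 - 3 + 1 = 2 * g := by omega
    have e5 : ((m + 1 - 3 : ℕ) : ℝ) = 2 * g - 1 := by
      have : ((m + 1 - 3 : ℕ) : ℝ) + 1 = 2 * g := by exact_mod_cast e4
      linarith
    rw [Nat.cast_mul, e5, e2, e3, e1]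
    push_cast
    ring
  have hgen := general hg hm hd ha
  rw [← hR, ← hk₂] at hgen
  have hG : 0 < 2 * (((g : ℝ) + 1) * g) := by positivity
  have hNk : (2 * (((g : ℝ) + 1) * g) * (4 * g) + N) * k₂ ≤ (1 - 1 / 2) * lN t := by
    have h1 : Module.finrank ℚ K * A ≤ lN t := le_trans (by gcongr) hlN
    rw [hA] at h1
    rw [hk₂]
    linarith
  have hfin : 2 * (((g : ℝ) + 1) * g) * Real.log (discNorm g (pol d a)) ≤
      2 * (((g : ℝ) + 1) * g) * ((8 * g ^ 2 + 4 * g) * R) := by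
    have h1 : 2 * (((g : ℝ) + 1) * g) * ((8 * g ^ 2 + 4 * g) * R) =
        2 * (((g : ℝ) + 1) * g) * ((4 * g + 2) * R) + N * R := by
      rw [hN]
      ring
    rw [h1]
    linarith
  have hfin' := le_of_mul_le_mul_left hfin hG
  have hM1 := one_le_badNorm hF
  have hΔ1 := one_le_discNorm hF
  have hM0 : (0 : ℝ) < badNorm g (pol d a) := by exact_mod_cast hM1
  have hΔ0 : (0 : ℝ) < discNorm g (pol d a) := by exact_mod_cast hΔ1
  have hreal : (discNorm g (pol d a) : ℝ) ≤ (badNorm g (pol d a) : ℝ) ^ (8 * g ^ 2 + 4 * g) := by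
    rw [← Real.log_le_log_iff hΔ0 (by positivity), Real.log_pow, ← hR]
    push_cast
    exact hfin'
  exact_mod_cast hreal

end Pool.Agent.Q128.HD
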