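import Pool.Agent.Q128.HD.Quad
import Pool.Agent.TH905.VF.Core

set_option autoImplicit false

/-!
# The minimal discriminant and the heights of the cross ratios of the Weierstrass points
-/

namespace Pool.Agent.Q128.HD

open Polynomial Finset NumberField IsDedekindDomain WithZero Pool.Agent.W318 Pool.Agent.H691R3 Height

variable {K : Type} [Field K] [NumberField K]

theorem log_fv_od (v : HeightOneSpectrum (𝓞 K)) {x : K} (hx : x ≠ 0) :
    Real.log (fv v x) = -(od v x : ℝ) * Real.log (Nv v) := by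
  rw [Pool.Agent.TH905.HS.fv_of_exp v (val_eq v hx), Real.log_zpow]
  push_cast
  ring

theorem exc_term (v : HeightOneSpectrum (𝓞 K)) (y : Fin 3 → K) (hy : ∀ i, y i ≠ 0) :
    (exc v (y 0) (y 1) (y 2) : ℝ) * Real.log (Nv v) ≤
      Real.log (⨆ j, fv v (y j)) - Real.log (fv v (y 0)) := by
  have h1 : ∀ j, -(od v (y j) : ℝ) * Real.log (Nv v) ≤ Real.log (⨆ j, fv v (y j)) := by
    intro j
    rw [← log_fv_od v (hy j)]
    apply Real.log_le_log ((fv v).pos (hy j))
    exact le_ciSup (f := fun j => fv v (y j)) (Set.finite_range _).bddAbove j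
  rw [log_fv_od v (hy 0)]
  have h2 : ∃ j, min (od v (y 0)) (min (od v (y 1)) (od v (y 2))) = od v (y j) := by
    rcases min_choice (od v (y 0)) (min (od v (y 1)) (od v (y 2))) with h | h
    · exact ⟨0, h⟩
    · rcases min_choice (od v (y 1)) (od v (y 2)) with h' | h'
      · exact ⟨1, h.trans h'⟩
      · exact ⟨2, h.trans h'⟩
  obtain ⟨j, hj⟩ := h2
  have h3 : ((exc v (y 0) (y 1) (y 2) : ℕ) : ℤ) = od v (y 0) - od v (y j) := by
    unfold exc
    rw [← hj]
    exact Int.toNat_of_nonneg (by have := min_le_left (od v (y 0)) (min (od v (y 1)) (od v (y 2)));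
                                  omega)
  have h4 : (exc v (y 0) (y 1) (y 2) : ℝ) = (od v (y 0) : ℝ) - od v (y j) := by
    exact_mod_cast h3
  rw [h4]
  have := h1 j
  linarith

/-- the counting function of the first coordinate is at most the height -/
theorem exc_sum_le (y : Fin 3 → K) (hy : ∀ i, y i ≠ 0) (R : Finset (HeightOneSpectrum (𝓞 K))) :
    ∑ v ∈ R, (exc v (y 0) (y 1) (y 2) : ℝ) * Real.log (Nv v) ≤ logHeight y := by
  classical
  obtain ⟨T0, hT0⟩ := Pool.Agent.TH905.VF.exists_supp y hy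
  set T := T0 ∪ R with hT
  have hTv : ∀ v, v ∉ T → ∀ i, fv v (y i) = 1 := fun v hv i =>
    hT0 v (fun h => hv (mem_union_left _ h)) i
  rw [Pool.Agent.TH905.VF.logHeight_eq_sum y hy (by norm_num) T hTv]
  have h0 := Pool.Agent.TH905.VF.product_formula (hy 0) T fun v hv => hTv v hv 0
  have h1 : ∑ v ∈ R, (exc v (y 0) (y 1) (y 2) : ℝ) * Real.log (Nv v) ≤
      ∑ v ∈ T, (exc v (y 0) (y 1) (y 2) : ℝ) * Real.log (Nv v) := by
    refine Finset.sum_le_sum_of_subset_of_nonneg subset_union_right fun v _ _ => ?_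
    exact mul_nonneg (Nat.cast_nonneg _) (log_Nv_pos v).le
  have h2 : ∑ v ∈ T, (exc v (y 0) (y 1) (y 2) : ℝ) * Real.log (Nv v) ≤
      ∑ v ∈ T, (Real.log (⨆ j, fv v (y j)) - Real.log (fv v (y 0))) :=
    Finset.sum_le_sum fun v _ => exc_term v y hy
  have h3 : ∑ w : InfinitePlace K, (w.mult : ℝ) * Real.log (w.1 (y 0)) ≤
      ∑ w : InfinitePlace K, (w.mult : ℝ) * Real.log (⨆ j, w.1 (y j)) := by
    refine Finset.sum_le_sum fun w _ => mul_le_mul_of_nonneg_left ?_ (Nat.cast_nonneg _)
    apply Real.log_le_log (w.1.pos (hy 0))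
    exact le_ciSup (f := fun j => w.1 (y j)) (Set.finite_range _).bddAbove 0
  rw [Finset.sum_sub_distrib] at h2
  linarith

/-- the primes above two -/
theorem two_sum_le (t : HeightOneSpectrum (𝓞 K) → ℕ)
    (ht : ∀ v : HeightOneSpectrum (𝓞 K), v.valuation K (2 : K) = exp (-(t v : ℤ)))
    (R : Finset (HeightOneSpectrum (𝓞 K))) :
    ∑ v ∈ R, (t v : ℝ) * Real.log (Nv v) ≤ Module.finrank ℚ K * Real.log 2 := by
  classical
  obtain ⟨T0, hT0⟩ := Pool.Agent.TH905.VF.exists_supp (fun _ : Fin 1 => (2 : K))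
    (fun _ => two_ne_zero)
  set T := T0 ∪ R with hT
  have hTv : ∀ v, v ∉ T → fv v (2 : K) = 1 := fun v hv =>
    hT0 v (fun h => hv (mem_union_left _ h)) 0
  have h0 := Pool.Agent.TH905.VF.product_formula (two_ne_zero : (2 : K) ≠ 0) T hTv
  have h1 : ∑ v ∈ R, (t v : ℝ) * Real.log (Nv v) ≤ ∑ v ∈ T, (t v : ℝ) * Real.log (Nv v) :=
    Finset.sum_le_sum_of_subset_of_nonneg subset_union_right fun v _ _ =>
      mul_nonneg (Nat.cast_nonneg _) (log_Nv_pos v).le
  have h2 : ∑ v ∈ T, Real.log (fv v (2 : K)) = -∑ v ∈ T, (t v : ℝ) * Real.log (Nv v) := by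
    rw [← Finset.sum_neg_distrib]
    refine Finset.sum_congr rfl fun v _ => ?_
    rw [Pool.Agent.TH905.HS.fv_of_exp v (ht v), Real.log_zpow]
    push_cast
    ring
  have h3 : ∑ w : InfinitePlace K, (w.mult : ℝ) * Real.log (w.1 (2 : K)) =
      Module.finrank ℚ K * Real.log 2 := by
    have e1 : ∀ w : InfinitePlace K, w.1 (2 : K) = 2 := by
      intro w
      have e2 : w.1 (2 : K) = ‖w.embedding (2 : K)‖ := (InfinitePlace.norm_embedding_eq w 2).symm
      rw [e2, map_ofNat]
      simp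
    rw [Finset.sum_congr rfl fun w _ => by rw [e1 w], ← Finset.sum_mul]
    congr 1
    rw [← InfinitePlace.sum_mult_eq]
    push_cast
    rfl
  rw [h2, h3] at h0
  linarith

section curve

variable {g : ℕ} {F : K[X]}

theorem log_badNorm (hF : IsHyp g F) : Real.log (badNorm g F) =
    ∑ v ∈ (finite_bad hF).toFinset, Real.log (Nv v) := by
  rw [badNorm_eq (finite_bad hF).toFinset fun v => by simp, Nat.cast_prod, Real.log_prod]
  · rfl
  · intro v _
    exact (lt_of_lt_of_le zero_lt_two (two_le_Nv v)).ne'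

theorem log_discNorm (hF : IsHyp g F) : Real.log (discNorm g F) =
    ∑ v ∈ (finite_bad hF).toFinset, (minExp g F v : ℝ) * Real.log (Nv v) := by
  rw [discNorm_eq (finite_bad hF).toFinset fun v hv => by simpa using hv,
    Nat.cast_prod, Real.log_prod]
  · refine Finset.sum_congr rfl fun v _ => ?_
    rw [Nat.cast_pow, Real.log_pow]
    rfl
  · intro v _
    rw [Nat.cast_pow]
    exact pow_ne_zero _ (lt_of_lt_of_le zero_lt_two (two_le_Nv v)).ne'

/-- the height of the cross ratio of four of the points -/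
noncomputable def qh {ι : Type*} [DecidableEq ι] (c : ι → ι → K) (i j k l : ι) : ℝ :=
  if Dist i j k l then logHeight ![c i j * c k l, c k i * c j l, c i l * c j k] else 0

theorem exc_neg (v : HeightOneSpectrum (𝓞 K)) (x y z : K) : exc v x (-y) z = exc v x y z := by
  unfold exc
  rw [od_neg]

/-- **The discriminant and the cross ratios.** -/
theorem global_quad (hg : 1 ≤ g) (hF : IsHyp g F) {u₀ : K} (hu : u₀ ≠ 0)
    (α β : Fin (g + 1 + (g + 1)) → K) (hc : ∀ i j, i ≠ j → α i * β j - α j * β i ≠ 0)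
    (hFe : F = C u₀ * ∏ i, (C (α i) * X + C (β i))) :
    2 * ((g + 1) * g) * Real.log (discNorm g F) ≤
      2 * ((g + 1) * g) * ((4 * g + 2) * Real.log (badNorm g F) +
        4 * g * (Module.finrank ℚ K * Real.log 2)) +
      ∑ i, ∑ j, ∑ k, ∑ l, qh (fun i j => α i * β j - α j * β i) i j k l := by
  classical
  choose t ht using fun v : HeightOneSpectrum (𝓞 K) => exists_two_exp v
  set Bd := (finite_bad hF).toFinset with hBd
  set c : Fin (g + 1 + (g + 1)) → Fin (g + 1 + (g + 1)) → K :=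
    fun i j => α i * β j - α j * β i with hcdef
  have h1 := log_discNorm hF
  have h2 := log_badNorm hF
  rw [← hBd] at h1 h2
  have hloc : ∀ v : HeightOneSpectrum (𝓞 K), 2 * ((g + 1) * g) * ((minExp g F v : ℝ) *
      Real.log (Nv v)) ≤ 2 * ((g + 1) * g) * (4 * g * ((t v : ℝ) * Real.log (Nv v)) +
        (4 * g + 2) * Real.log (Nv v)) +
      ∑ i, ∑ j, ∑ k, ∑ l, (lev v c i j k l : ℝ) * Real.log (Nv v) := by
    intro v
    have e1 := local_quad hg hF hu α β hc hFe v (ht v)
    have e2 : (2 * ((g + 1) * g) * minExp g F v : ℝ) ≤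
        2 * ((g + 1) * g) * (4 * g * t v + (4 * g + 2)) +
          ∑ i, ∑ j, ∑ k, ∑ l, (lev v c i j k l : ℝ) := by
      exact_mod_cast e1
    have e3 := mul_le_mul_of_nonneg_right e2 (log_Nv_pos v).le
    have e4 : (∑ i, ∑ j, ∑ k, ∑ l, (lev v c i j k l : ℝ)) * Real.log (Nv v) =
        ∑ i, ∑ j, ∑ k, ∑ l, (lev v c i j k l : ℝ) * Real.log (Nv v) := by
      simp only [Finset.sum_mul]
    rw [← e4]
    linarith
  have hsum := Finset.sum_le_sum fun v (_ : v ∈ Bd) => hloc v
  rw [← Finset.mul_sum, ← h1, Finset.sum_add_distrib, ← Finset.mul_sum, Finset.sum_add_distrib,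
    ← Finset.mul_sum, ← Finset.mul_sum, ← h2] at hsum
  have h3 := two_sum_le t ht Bd
  have h4 : ∑ v ∈ Bd, ∑ i, ∑ j, ∑ k, ∑ l, (lev v c i j k l : ℝ) * Real.log (Nv v) ≤
      ∑ i, ∑ j, ∑ k, ∑ l, qh c i j k l := by
    rw [Finset.sum_comm]
    refine Finset.sum_le_sum fun i _ => ?_
    rw [Finset.sum_comm]
    refine Finset.sum_le_sum fun j _ => ?_
    rw [Finset.sum_comm]
    refine Finset.sum_le_sum fun k _ => ?_
    rw [Finset.sum_comm]
    refine Finset.sum_le_sum fun l _ => ?_
    unfold qh lev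
    by_cases hd : Dist i j k l
    · simp only [if_pos hd]
      obtain ⟨hij, hik, hil, hjk, hjl, hkl⟩ := hd
      have h5 := exc_sum_le ![c i j * c k l, c k i * c j l, c i l * c j k] (by
        intro a
        fin_cases a
        · exact mul_ne_zero (hc i j hij) (hc k l hkl)
        · exact mul_ne_zero (hc k i hik.symm) (hc j l hjl)
        · exact mul_ne_zero (hc i l hil) (hc j k hjk)) Bd
      refine le_trans (le_of_eq ?_) h5
      refine Finset.sum_congr rfl fun v _ => ?_
      have e : c k i * c j l = -(c i k * c j l) := by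
        simp only [hcdef]
        ring
      have e2 : exc v (![c i j * c k l, c k i * c j l, c i l * c j k] 0)
          (![c i j * c k l, c k i * c j l, c i l * c j k] 1)
          (![c i j * c k l, c k i * c j l, c i l * c j k] 2) =
          exc v (c i j * c k l) (c i k * c j l) (c i l * c j k) := by
        change exc v (c i j * c k l) (c k i * c j l) (c i l * c j k) = _
        rw [e, exc_neg]
      rw [e2]
    · simp [if_neg hd]
  have h6 : 2 * (((g : ℝ) + 1) * g) * (4 * g * ∑ v ∈ Bd, (t v : ℝ) * Real.log (Nv v)) ≤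
      2 * ((g + 1) * g) * (4 * g * (Module.finrank ℚ K * Real.log 2)) := by
    gcongr
  linarith

end curve

end Pool.Agent.Q128.HD
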