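import Pool.Agent.Q128.HD.Conf

set_option autoImplicit false

/-!
# Configurations whose differences are composed of numbers with small digits
-/

namespace Pool.Agent.Q128.HD

open Polynomial Finset NumberField IsDedekindDomain WithZero Pool.Agent.W318 Pool.Agent.H691R3 Height
open Pool.Agent.TH905.HS (al be pol pol_eq pol_isHyp det_ne det_eq equal_of_good)
open Pool.Agent.W223.CV (cc ct)
open Pool.Agent.Q103.SDV (Bad)
open Pool.Agent.Q103.SDJ (Compo lN)
open Pool.Agent.Results.MP_a793bb_nt.SmallDigitPoints (Small point unequal)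

/-- the height of a point with small coordinates -/
theorem small_height {K : Type} [Field K] [NumberField K] (P b : Fin 3 → 𝓞 K) (ξ : 𝓞 K)
    (hξ : ξ ≠ 0) (hb : ∀ r, b r ≠ 0) (hP : ∀ r, P r = ξ * b r) {M : ℝ}
    (hbM : ∀ r, ∀ σ : K →+* ℂ, ‖σ (b r)‖ ≤ M) :
    logHeight (fun r => (P r : K)) ≤ Module.finrank ℚ K * Real.log M := by
  have hb' : ∀ r, (b r : K) ≠ 0 := fun r => by
    rw [Ne, RingOfIntegers.coe_eq_zero_iff]
    exact hb r
  have e1 : (fun r => (P r : K)) = (ξ : K) • (fun r => (b r : K)) := by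
    funext r
    rw [hP r, Pi.smul_apply, smul_eq_mul]
    push_cast
    rfl
  have hξ' : (ξ : K) ≠ 0 := by
    rw [Ne, RingOfIntegers.coe_eq_zero_iff]
    exact hξ
  rw [e1, logHeight_smul_eq_logHeight _ hξ']
  obtain ⟨T, hT⟩ := Pool.Agent.TH905.VF.exists_supp (fun r => (b r : K)) hb'
  rw [Pool.Agent.TH905.VF.logHeight_eq_sum _ hb' (by norm_num) T hT]
  have h1 : ∑ w : InfinitePlace K, (w.mult : ℝ) * Real.log (⨆ j, w.1 (b j : K)) ≤
      ∑ w : InfinitePlace K, (w.mult : ℝ) * Real.log M := by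
    refine Finset.sum_le_sum fun w _ => mul_le_mul_of_nonneg_left ?_ (Nat.cast_nonneg _)
    have h2 : ∀ j, w.1 (b j : K) ≤ M := fun j => by
      have h3 : w.1 (b j : K) = ‖w.embedding (b j : K)‖ := (InfinitePlace.norm_embedding_eq w _).symm
      rw [h3]
      exact hbM j w.embedding
    apply Real.log_le_log
    · exact lt_of_lt_of_le (w.1.pos (hb' 0))
        (le_ciSup (f := fun j => w.1 (b j : K)) (Set.finite_range _).bddAbove 0)
    · exact ciSup_le h2
  have h2 : ∑ w : InfinitePlace K, (w.mult : ℝ) * Real.log M = Module.finrank ℚ K * Real.log M := by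
    rw [← Finset.sum_mul]
    congr 1
    rw [← InfinitePlace.sum_mult_eq]
    push_cast
    rfl
  have h3 : ∑ v ∈ T, Real.log (⨆ j, fv v (b j : K)) ≤ 0 := by
    refine Finset.sum_nonpos fun v _ => Real.log_nonpos ?_ ?_
    · exact le_trans ((fv v).nonneg _)
        (le_ciSup (f := fun j => fv v (b j : K)) (Set.finite_range _).bddAbove 0)
    · exact ciSup_le fun j => fv_int_le_one v (b j)
  linarith

section ext

variable {K : Type} [Field K] [NumberField K] {m n : ℕ}

/-- the coefficients, with the point at infinity -/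
def cx (c : Fin m → Fin m → 𝓞 K) : Fin (m + 1) → Fin (m + 1) → 𝓞 K := fun x y =>
  Fin.cases (motive := fun _ => 𝓞 K) (Fin.cases (motive := fun _ => 𝓞 K) 1 (fun _ => -1) y)
    (fun i => Fin.cases (motive := fun _ => 𝓞 K) 1 (fun j => c i j) y) x

/-- the exponents, with the point at infinity -/
def ex (e : Fin m → Fin m → Fin n → ℕ) : Fin (m + 1) → Fin (m + 1) → Fin n → ℕ := fun x y =>
  Fin.cases (motive := fun _ => Fin n → ℕ) (fun _ => 0)
    (fun i => Fin.cases (motive := fun _ => Fin n → ℕ) (fun _ => 0) (fun j => e i j) y) x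

/-- the scaling factors -/
def lx (κ : K) : Fin (m + 1) → K := fun x => Fin.cases (motive := fun _ => K) κ⁻¹ (fun _ => 1) x

omit [NumberField K] in
theorem lx_ne {κ : K} (hκ : κ ≠ 0) (x : Fin (m + 1)) : lx κ x ≠ 0 := by
  unfold lx
  refine Fin.cases ?_ (fun _ => ?_) x
  · exact inv_ne_zero hκ
  · exact one_ne_zero

theorem cross_eq (t : 𝓞 K) (F : Fin n → (𝓞 K)[X]) {κ : K} (hκ : κ ≠ 0) (a : Fin m → K)
    (c : Fin m → Fin m → 𝓞 K) (e : Fin m → Fin m → Fin n → ℕ)
    (h : ∀ i j, i ≠ j → a i - a j = κ * ((c i j * ∏ s, (F s).eval t ^ e i j s : 𝓞 K) : K))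
    (x y : Fin (m + 1)) (hxy : x ≠ y) :
    al K m x * be a y - al K m y * be a x =
      κ * lx κ x * lx κ y * ((cx c x y * ∏ s, (F s).eval t ^ ex e x y s : 𝓞 K) : K) := by
  rw [det_eq]
  revert hxy
  refine Fin.cases ?_ (fun i' => ?_) x <;> refine Fin.cases ?_ (fun j' => ?_) y <;> intro hxy
  · exact absurd rfl hxy
  · simp [cx, ex, lx, hκ]
  · simp [cx, ex, lx, hκ]
  · have h1 := h i' j' fun hh => hxy (congrArg Fin.succ hh)
    simp only [cx, ex, lx, Fin.cases_succ, mul_one]
    exact h1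

end ext

/-- the inequality for one cross ratio -/
theorem quad_case {K : Type} [Field K] [NumberField K] {g : ℕ} (hg : 2 ≤ g) {m n : ℕ}
    (hm : m = 2 * g + 1) {δ δ' T : ℝ} (hδ : 0 < δ) (hδ' : 2 * δ ≤ δ') (hT1 : 1 ≤ T)
    (hT2 : 2 ≤ T ^ δ) (D : ℕ) (t : 𝓞 K) (F : Fin n → (𝓞 K)[X]) {κ : K} (hκ : κ ≠ 0)
    (a : Fin m → K) (c : Fin m → Fin m → 𝓞 K) (e : Fin m → Fin m → Fin n → ℕ)
    (ha : Function.Injective a)
    (h : ∀ i j, i ≠ j → a i - a j = κ * ((c i j * ∏ s, (F s).eval t ^ e i j s : 𝓞 K) : K))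
    (base : ∀ σ : K →+* ℂ, T ≤ ‖σ t‖) (two_digits : ∀ s, 0 < (F s).natDegree)
    (number : ∑ s, (F s).natDegree ≤ D)
    (digits : ∀ s j, ∀ σ : K →+* ℂ, ‖σ ((F s).coeff j)‖ ≤ T ^ δ)
    (first : ∀ s, ∀ σ : K →+* ℂ, T ^ (-δ) ≤ ‖σ (F s).leadingCoeff‖)
    (last : ∀ s, ∀ σ : K →+* ℂ, ‖σ ((F s).coeff 0)‖ ≤ 1)
    (coprime : ∀ s s', s ≠ s' → IsCoprime ((F s).eval t) ((F s').eval t))
    (coefficients : ∀ i j, i ≠ j → ∀ σ : K →+* ℂ, ‖σ (c i j)‖ ≤ T ^ δ)
    (exponents : ∀ i j, i ≠ j → ((∑ s, e i j s : ℕ) : ℝ) ≤ T ^ δ)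
    (S : Finset (Fin n)) (hS : ∀ s, (∃ i j k l, i ≠ j ∧ k ≠ l ∧ e i j s ≠ e k l s) → s ∈ S)
    (hsq : Squarefree (Ideal.span {∏ s ∈ S, (F s).eval t}))
    (habc : ∀ P : Fin 3 → 𝓞 K, Compo D δ' T t P → P 0 + P 1 + P 2 = 0 → (∃ k, P k ≠ 0) →
      (∀ k, P k ≠ 0) ∧ Module.finrank ℚ K * Real.log T ≤ lN t ∧
      logHeight (fun k => (P k : K)) + (1 - 1 / 2) * lN t ≤ cc ∅ (Bad P))
    {d : K} (hd : d ≠ 0) {i j k l : Fin (m + 1)} (hD : Dist i j k l) :
    (qh (fun x y => al K m x * be a y - al K m y * be a x) i j k l + (1 - 1 / 2) * lN t ≤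
        Real.log (badNorm g (pol d a)) + Module.finrank ℚ K * Real.log 2) ∨
      ((∀ s, ex e i j s + ex e k l s = ex e k i s + ex e j l s ∧
          ex e i j s + ex e k l s = ex e i l s + ex e j k s) ∧
        qh (fun x y => al K m x * be a y - al K m y * be a x) i j k l ≤
          Module.finrank ℚ K * (2 * δ * Real.log T)) := by
  classical
  obtain ⟨hij, hik, hil, hjk, hjl, hkl⟩ := id hD
  have hT0 : 0 < T := by linarith
  have hTδ : 1 ≤ T ^ δ := by linarith
  set cr : Fin (m + 1) → Fin (m + 1) → K := fun x y => al K m x * be a y - al K m y * be a x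
    with hcr
  have hcrne : ∀ x y, x ≠ y → cr x y ≠ 0 := fun x y hxy => det_ne ha x y hxy
  have hce := cross_eq t F hκ a c e h
  set b : Fin 3 → 𝓞 K := ![cx c i j * cx c k l, cx c k i * cx c j l, cx c i l * cx c j k] with hb
  set E : Fin 3 → Fin n → ℕ := ![fun s => ex e i j s + ex e k l s,
    fun s => ex e k i s + ex e j l s, fun s => ex e i l s + ex e j k s] with hE
  set P : Fin 3 → 𝓞 K := point t F b E with hP
  set μ : K := κ ^ 2 * lx κ i * lx κ j * lx κ k * lx κ l with hμ
  have hμ0 : μ ≠ 0 := mul_ne_zero (mul_ne_zero (mul_ne_zero (mul_ne_zero (pow_ne_zero 2 hκ)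
    (lx_ne hκ i)) (lx_ne hκ j)) (lx_ne hκ k)) (lx_ne hκ l)
  have hPP : ∀ (x y z w : Fin (m + 1)) (_ : x ≠ y) (_ : z ≠ w),
      cr x y * cr z w = κ ^ 2 * lx κ x * lx κ y * lx κ z * lx κ w *
        (((cx c x y * cx c z w) * ∏ s, (F s).eval t ^ (ex e x y s + ex e z w s) : 𝓞 K) : K) := by
    intro x y z w hxy hzw
    simp only [hcr]
    rw [hce x y hxy, hce z w hzw]
    have e1 : (∏ s, (F s).eval t ^ (ex e x y s + ex e z w s) : 𝓞 K) =
        (∏ s, (F s).eval t ^ ex e x y s) * ∏ s, (F s).eval t ^ ex e z w s := by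
      rw [← Finset.prod_mul_distrib]
      exact Finset.prod_congr rfl fun s _ => pow_add _ _ _
    rw [e1]
    push_cast
    ring
  have hy : ∀ r, ![cr i j * cr k l, cr k i * cr j l, cr i l * cr j k] r = μ * (P r : K) := by
    intro r
    fin_cases r
    · change cr i j * cr k l = μ * _
      rw [hPP i j k l hij hkl]
      rfl
    · change cr k i * cr j l = μ * _
      rw [hPP k i j l hik.symm hjl]
      have : κ ^ 2 * lx κ k * lx κ i * lx κ j * lx κ l = μ := by rw [hμ]; ring
      rw [this]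
      rfl
    · change cr i l * cr j k = μ * _
      rw [hPP i l j k hil hjk]
      have : κ ^ 2 * lx κ i * lx κ l * lx κ j * lx κ k = μ := by rw [hμ]; ring
      rw [this]
      rfl
  have hP0 : ∀ r, P r ≠ 0 := by
    intro r h0
    have h1 := hy r
    rw [h0] at h1
    simp only [map_zero, mul_zero] at h1
    revert h1
    fin_cases r
    · exact mul_ne_zero (hcrne i j hij) (hcrne k l hkl)
    · exact mul_ne_zero (hcrne k i hik.symm) (hcrne j l hjl)
    · exact mul_ne_zero (hcrne i l hil) (hcrne j k hjk)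
  have hsum : P 0 + P 1 + P 2 = 0 := by
    have h0 := hy 0
    have h1 := hy 1
    have h2 := hy 2
    change cr i j * cr k l = _ at h0
    change cr k i * cr j l = _ at h1
    change cr i l * cr j k = _ at h2
    have h3 : cr i j * cr k l + cr k i * cr j l + cr i l * cr j k = 0 := by
      simp only [hcr]
      ring
    have h4 : μ * ((P 0 + P 1 + P 2 : 𝓞 K) : K) = 0 := by
      push_cast
      rw [mul_add, mul_add, ← h0, ← h1, ← h2, h3]
    have h5 := (mul_eq_zero.mp h4).resolve_left hμ0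
    exact_mod_cast h5
  have hqh : qh cr i j k l = logHeight (fun r => (P r : K)) := by
    unfold qh
    rw [if_pos hD]
    have : ![cr i j * cr k l, cr k i * cr j l, cr i l * cr j k] = μ • fun r => (P r : K) := by
      funext r
      rw [hy r]
      rfl
    rw [this, logHeight_smul_eq_logHeight _ hμ0]
  have hb0 : ∀ r, b r ≠ 0 := by
    intro r h0
    apply hP0 r
    rw [hP]
    unfold Pool.Agent.Results.MP_a793bb_nt.SmallDigitPoints.point
    rw [h0, zero_mul]
  have hcx : ∀ x y, x ≠ y → ∀ σ : K →+* ℂ, ‖σ (cx c x y)‖ ≤ T ^ δ := by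
    intro x y hxy σ
    unfold cx
    revert hxy
    refine Fin.cases ?_ (fun i' => ?_) x <;> refine Fin.cases ?_ (fun j' => ?_) y <;> intro hxy
    · exact absurd rfl hxy
    · simpa using hTδ
    · simpa using hTδ
    · exact coefficients i' j' (fun hh => hxy (congrArg Fin.succ hh)) σ
  have hTT : T ^ δ * T ^ δ ≤ T ^ δ' := by
    rw [← Real.rpow_add hT0]
    exact Real.rpow_le_rpow_of_exponent_le hT1 (by linarith)
  have hbT : ∀ r, ∀ σ : K →+* ℂ, ‖σ (b r)‖ ≤ T ^ δ * T ^ δ := by
    have key : ∀ x y z w : Fin (m + 1), x ≠ y → z ≠ w → ∀ σ : K →+* ℂ,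
        ‖σ ((cx c x y * cx c z w : 𝓞 K) : K)‖ ≤ T ^ δ * T ^ δ := by
      intro x y z w hxy hzw σ
      have e1 : ((cx c x y * cx c z w : 𝓞 K) : K) = (cx c x y : K) * (cx c z w : K) := by
        push_cast
        rfl
      rw [e1, map_mul, norm_mul]
      exact mul_le_mul (hcx x y hxy σ) (hcx z w hzw σ) (norm_nonneg _) (by linarith)
    intro r σ
    fin_cases r
    · exact key i j k l hij hkl σ
    · exact key k i j l hik.symm hjl σ
    · exact key i l j k hil hjk σ
  have hex : ∀ x y, x ≠ y → ((∑ s, ex e x y s : ℕ) : ℝ) ≤ T ^ δ := by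
    intro x y hxy
    unfold ex
    revert hxy
    refine Fin.cases ?_ (fun i' => ?_) x <;> refine Fin.cases ?_ (fun j' => ?_) y <;> intro hxy
    · exact absurd rfl hxy
    · simp
      linarith
    · simp
      linarith
    · exact exponents i' j' (fun hh => hxy (congrArg Fin.succ hh))
  have hET : ∀ r, ((∑ s, E r s : ℕ) : ℝ) ≤ T ^ δ' := by
    have key : ∀ x y z w : Fin (m + 1), x ≠ y → z ≠ w →
        ((∑ s, (ex e x y s + ex e z w s) : ℕ) : ℝ) ≤ T ^ δ' := by
      intro x y z w hxy hzw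
      rw [Finset.sum_add_distrib, Nat.cast_add]
      have h1 := hex x y hxy
      have h2 := hex z w hzw
      have h3 : T ^ δ + T ^ δ ≤ T ^ δ * T ^ δ := by nlinarith
      linarith
    intro r
    fin_cases r
    · exact key i j k l hij hkl
    · exact key k i j l hik.symm hjl
    · exact key i l j k hil hjk
  have hδδ : δ ≤ δ' := by linarith
  have hsmall : Small D δ' T t F b E :=
    { base := base
      two_digits := two_digits
      number := number
      digits := fun s j σ => (digits s j σ).trans (Real.rpow_le_rpow_of_exponent_le hT1 hδδ)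
      first := fun s σ => le_trans (Real.rpow_le_rpow_of_exponent_le hT1 (by linarith)) (first s σ)
      last := last
      coprime := coprime
      ne_zero := hb0
      coefficients := fun r σ => (hbT r σ).trans hTT
      exponents := hET }
  by_cases hU : (unequal E).Nonempty
  · left
    have hsub : unequal E ⊆ S := by
      intro s hs
      by_contra hsS
      have hconst : ∃ ρ, ∀ i j : Fin m, i ≠ j → e i j s = ρ := by
        refine ⟨e ⟨0, by omega⟩ ⟨1, by omega⟩ s, fun i' j' hij' => ?_⟩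
        by_contra hne
        exact hsS (hS s ⟨i', j', _, _, hij', by simp [Fin.ext_iff], hne⟩)
      obtain ⟨ρ, hρ⟩ := hconst
      have hds := dist_sum (fun x y => ex e x y s) ρ (by
        intro x y hxy
        unfold ex
        revert hxy
        refine Fin.cases ?_ (fun i' => ?_) x <;> refine Fin.cases ?_ (fun j' => ?_) y <;> intro hxy
        · exact absurd rfl hxy
        · simp
        · simp
        · rw [if_neg (by simp)]
          exact hρ i' j' (fun hh => hxy (congrArg Fin.succ hh))) hD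
      unfold Pool.Agent.Results.MP_a793bb_nt.SmallDigitPoints.unequal at hs
      rw [mem_filter] at hs
      apply hs.2
      constructor
      · exact hds.1
      · change ex e k i s + ex e j l s = ex e i l s + ex e j k s
        rw [← hds.1]
        exact hds.2
    have hsq' : Squarefree (Ideal.span {∏ s ∈ unequal E, (F s).eval t}) := by
      refine hsq.squarefree_of_dvd ?_
      rw [← Finset.prod_sdiff hsub, ← Ideal.span_singleton_mul_span_singleton]
      exact Dvd.intro_left _ rfl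
    obtain ⟨-, -, h3⟩ := habc P ⟨n, F, b, E, hsmall, hU, hsq', rfl⟩ hsum ⟨0, hP0 0⟩
    have h4 := cc_le hg hm hd ha hD P hP0 μ hμ0 hy
    rw [hqh]
    linarith
  · right
    have heq : ∀ s, E 0 s = E 1 s ∧ E 1 s = E 2 s := by
      intro s
      by_contra hcon
      apply hU
      refine ⟨s, ?_⟩
      unfold Pool.Agent.Results.MP_a793bb_nt.SmallDigitPoints.unequal
      rw [mem_filter]
      exact ⟨mem_univ _, hcon⟩
    refine ⟨fun s => ⟨(heq s).1, (heq s).1.trans (heq s).2⟩, ?_⟩
    rw [hqh]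
    have hE' : ∀ r s, E r s = E 0 s := by
      intro r s
      fin_cases r
      · rfl
      · exact (heq s).1.symm
      · exact ((heq s).1.trans (heq s).2).symm
    have hξ : ∏ s, (F s).eval t ^ E 0 s ≠ 0 := by
      intro h0
      apply hP0 0
      rw [hP]
      unfold Pool.Agent.Results.MP_a793bb_nt.SmallDigitPoints.point
      rw [h0, mul_zero]
    have h1 := small_height P b (∏ s, (F s).eval t ^ E 0 s) hξ hb0 (by
      intro r
      rw [hP]
      unfold Pool.Agent.Results.MP_a793bb_nt.SmallDigitPoints.point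
      rw [mul_comm]
      congr 1
      exact Finset.prod_congr rfl fun s _ => by rw [hE' r s]) (M := T ^ δ * T ^ δ) hbT
    refine h1.trans (le_of_eq ?_)
    rw [← Real.rpow_add hT0, Real.log_rpow hT0]
    ring

end Pool.Agent.Q128.HD
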