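import Pool.Agent.Q128.HD.Ord

set_option autoImplicit false

/-!
# Binary forms with rational linear factors: a model in which no residue class contains more than half
of the roots
-/

namespace Pool.Agent.Q128.HD

open Polynomial Finset NumberField IsDedekindDomain WithZero Pool.Agent.W318

variable {K : Type} [Field K] [NumberField K]

/-- A form equivalent to `F` with primitive linear factors at `v`. -/
structure Nrm (v : HeightOneSpectrum (𝓞 K)) (h : ℕ) (F : K[X]) (c₀ : Fin (h + h) → Fin (h + h) → K)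
    (u : K) (α β : Fin (h + h) → K) : Prop where
  deg : F.natDegree ≤ h + h
  hu : u ≠ 0
  unit : ∀ i, max (v.valuation K (α i)) (v.valuation K (β i)) = 1
  eqv : Eqv h F (C u * ∏ i, (C (α i) * X + C (β i)))
  rel : ∃ (D : K) (s : Fin (h + h) → K), D ≠ 0 ∧ (∀ i, s i ≠ 0) ∧
    ∀ i j, α i * β j - α j * β i = D * s i * s j * c₀ i j

variable {v : HeightOneSpectrum (𝓞 K)} {h : ℕ} {F : K[X]} {c₀ : Fin (h + h) → Fin (h + h) → K}
  {u : K} {α β : Fin (h + h) → K}

/-- the sum of the orders of the differences -/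
noncomputable def SS (v : HeightOneSpectrum (𝓞 K)) (α β : Fin (h + h) → K) : ℕ :=
  ∑ i, ∑ j, (od v (α i * β j - α j * β i)).toNat

section

variable (hN : Nrm v h F c₀ u α β)

include hN

theorem Nrm.α_le (i : Fin (h + h)) : v.valuation K (α i) ≤ 1 := (le_max_left _ _).trans (hN.unit i).le

theorem Nrm.β_le (i : Fin (h + h)) : v.valuation K (β i) ≤ 1 :=
  (le_max_right _ _).trans (hN.unit i).le

theorem Nrm.cr_le (i j : Fin (h + h)) : v.valuation K (α i * β j - α j * β i) ≤ 1 := by
  refine (Valuation.map_sub _ _ _).trans (max_le ?_ ?_)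
  · rw [map_mul]; exact mul_le_one' (hN.α_le i) (hN.β_le j)
  · rw [map_mul]; exact mul_le_one' (hN.α_le j) (hN.β_le i)

theorem Nrm.cr_ne (hc : ∀ i j, i ≠ j → c₀ i j ≠ 0) (i j : Fin (h + h)) (hij : i ≠ j) :
    α i * β j - α j * β i ≠ 0 := by
  obtain ⟨D, s, hD, hs, hr⟩ := hN.rel
  rw [hr]
  exact mul_ne_zero (mul_ne_zero (mul_ne_zero hD (hs i)) (hs j)) (hc i j hij)

theorem Nrm.od_nonneg (hc : ∀ i j, i ≠ j → c₀ i j ≠ 0) (i j : Fin (h + h)) :
    0 ≤ od v (α i * β j - α j * β i) := by
  rcases eq_or_ne i j with rfl | hij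
  · rw [sub_self, od_zero]
  · exact (val_le_one_iff v (hN.cr_ne hc i j hij)).mp (hN.cr_le i j)

/-- substitution and rescaling -/
theorem Nrm.subst {a b c d : K} (hdet : a * d - b * c ≠ 0) (hcd : c ≠ 0 ∨ d ≠ 0)
    (s : Fin (h + h) → K) (hs : ∀ i, s i ≠ 0)
    (hun : ∀ i, max (v.valuation K (s i * (α i * a + β i * c)))
      (v.valuation K (s i * (α i * b + β i * d))) = 1) :
    Nrm v h F c₀ (u * ∏ i, (s i)⁻¹) (fun i => s i * (α i * a + β i * c))
      (fun i => s i * (α i * b + β i * d)) where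
  deg := hN.deg
  hu := mul_ne_zero hN.hu (prod_ne_zero_iff.mpr fun i _ => inv_ne_zero (hs i))
  unit := hun
  eqv := by
    refine Eqv.trans hN.deg hN.eqv ⟨a, b, c, d, 1, hdet, one_ne_zero, ?_⟩
    rw [act_prod (h + h) hcd, one_pow, C_1, one_mul, C_mul, mul_assoc, map_prod,
      ← Finset.prod_mul_distrib]
    congr 1
    refine Finset.prod_congr rfl fun i _ => ?_
    have h1 : (C (s i)⁻¹ * C (s i) : K[X]) = 1 := by
      rw [← C_mul, inv_mul_cancel₀ (hs i), C_1]
    rw [C_mul, C_mul]
    linear_combination (C (α i * a + β i * c) * X + C (α i * b + β i * d)) * h1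
  rel := by
    obtain ⟨D, s', hD, hs', hr⟩ := hN.rel
    refine ⟨(a * d - b * c) * D, fun i => s i * s' i, mul_ne_zero hdet hD,
      fun i => mul_ne_zero (hs i) (hs' i), fun i j => ?_⟩
    have := hr i j
    simp only
    linear_combination (a * d - b * c) * s i * s j * this

theorem Nrm.swap : Nrm v h F c₀ (u * ∏ _i : Fin (h + h), (1 : K)⁻¹) β α := by
  have h1 := hN.subst (a := 0) (b := 1) (c := 1) (d := 0) (by simp) (Or.inl one_ne_zero)
    (fun _ => 1) (fun _ => one_ne_zero) (fun i => by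
      simp only [mul_zero, mul_one, zero_add, add_zero, one_mul]
      rw [max_comm]
      exact hN.unit i)
  simp only [mul_zero, mul_one, zero_add, add_zero, one_mul] at h1
  exact h1

end

theorem SS_swap : SS v β α = SS v α β := by
  unfold SS
  refine Finset.sum_congr rfl fun i _ => Finset.sum_congr rfl fun j _ => ?_
  have : β i * α j - β j * α i = -(α i * β j - α j * β i) := by ring
  rw [this, od_neg]

/-- the class of `i` -/
noncomputable def cls (v : HeightOneSpectrum (𝓞 K)) (α β : Fin (h + h) → K) (i : Fin (h + h)) :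
    Finset (Fin (h + h)) := by
  classical
  exact univ.filter (fun j => v.valuation K (α i * β j - α j * β i) < 1)

theorem mem_cls {i j : Fin (h + h)} :
    j ∈ cls v α β i ↔ v.valuation K (α i * β j - α j * β i) < 1 := by
  classical
  unfold cls
  simp

theorem cls_swap (i : Fin (h + h)) : cls v β α i = cls v α β i := by
  ext j
  rw [mem_cls, mem_cls]
  have : β i * α j - β j * α i = -(α i * β j - α j * β i) := by ring
  rw [this, Valuation.map_neg]

theorem step_one (hN : Nrm v h F c₀ u α β) (hc : ∀ i j, i ≠ j → c₀ i j ≠ 0) (i₀ : Fin (h + h))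
    (hm : h + 1 ≤ (cls v α β i₀).card) (hα : v.valuation K (α i₀) = 1) :
    ∃ (u' : K) (α' β' : Fin (h + h) → K), Nrm v h F c₀ u' α' β' ∧ SS v α' β' < SS v α β := by
  classical
  obtain ⟨ϖ, hϖ0, hϖ1, hϖ⟩ := exists_unif v
  have hα0 : α i₀ ≠ 0 := by
    intro h0
    rw [h0, map_zero] at hα
    exact zero_ne_one hα
  set r : K := β i₀ / α i₀ with hr
  have hkey : ∀ j, α j * -r + β j * 1 = (α i₀ * β j - α j * β i₀) / α i₀ := by
    intro j
    rw [hr]
    field_simp
    ring
  have hvkey : ∀ j, v.valuation K (α j * -r + β j * 1) =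
      v.valuation K (α i₀ * β j - α j * β i₀) := by
    intro j
    rw [hkey, map_div₀, hα, div_one]
  -- members
  have hmemα : ∀ j ∈ cls v α β i₀, v.valuation K (α j) = 1 := by
    intro j hj
    rw [mem_cls] at hj
    by_contra hne
    have hlt : v.valuation K (α j) < 1 := lt_of_le_of_ne (hN.α_le j) hne
    have hβj : v.valuation K (β j) = 1 := by
      have := hN.unit j
      rcases le_total (v.valuation K (α j)) (v.valuation K (β j)) with h1 | h1
      · rwa [max_eq_right h1] at this
      · rw [max_eq_left h1] at this; exact absurd this hne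
    have h1 : v.valuation K (α j * β i₀) < v.valuation K (α i₀ * β j) := by
      rw [map_mul, map_mul, hα, hβj, mul_one]
      exact (mul_le_of_le_one_right' (hN.β_le i₀)).trans_lt hlt
    rw [Valuation.map_sub_eq_of_lt_left _ h1, map_mul, hα, hβj, mul_one] at hj
    exact lt_irrefl _ hj
  set s : Fin (h + h) → K := fun i => if i ∈ cls v α β i₀ then ϖ⁻¹ else 1 with hs
  have hs0 : ∀ i, s i ≠ 0 := by
    intro i
    simp only [hs]
    split_ifs
    · exact inv_ne_zero hϖ0
    · exact one_ne_zero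
  have hN' := hN.subst (a := ϖ) (b := -r) (c := 0) (d := 1) (by simpa using hϖ0)
    (Or.inr one_ne_zero) s hs0 (by
      intro i
      rw [mul_zero, add_zero, map_mul, map_mul, map_mul, hvkey]
      simp only [hs]
      split_ifs with hi
      · have e1 : v.valuation K ϖ⁻¹ * (v.valuation K (α i) * v.valuation K ϖ) = 1 := by
          rw [hmemα i hi, one_mul, map_inv₀,
            inv_mul_cancel₀ ((Valuation.ne_zero_iff _).mpr hϖ0)]
        rw [e1]
        apply max_eq_left
        rw [mem_cls] at hi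
        rw [map_inv₀, hϖ]
        rcases eq_or_ne (α i₀ * β i - α i * β i₀) 0 with h0 | h0
        · rw [h0, map_zero, mul_zero]
          exact zero_le
        · rw [val_lt_one_iff v h0] at hi
          rw [val_eq v h0, ← exp_neg, ← exp_add, ← exp_zero, exp_le_exp]
          omega
      · rw [mem_cls, not_lt] at hi
        have e1 : v.valuation K (α i₀ * β i - α i * β i₀) = 1 := le_antisymm (hN.cr_le i₀ i) hi
        rw [e1, map_one, one_mul, one_mul]
        apply max_eq_right
        have h3 : v.valuation K ϖ ≤ 1 := by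
          rw [hϖ, ← exp_zero, exp_le_exp]
          omega
        exact mul_le_one' (hN.α_le i) h3)
  refine ⟨_, _, _, hN', ?_⟩
  -- the sum
  obtain ⟨m, hmdef⟩ : ∃ m, m = (cls v α β i₀).card := ⟨_, rfl⟩
  rw [← hmdef] at hm
  have hcr' : ∀ i j, s i * (α i * ϖ + β i * 0) * (s j * (α j * -r + β j * 1)) -
      s j * (α j * ϖ + β j * 0) * (s i * (α i * -r + β i * 1)) =
      ϖ * (s i * s j) * (α i * β j - α j * β i) := by
    intro i j
    ring
  have hods : ∀ i, od v (s i) = if i ∈ cls v α β i₀ then -1 else 0 := by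
    intro i
    by_cases hi : i ∈ cls v α β i₀
    · have e : s i = ϖ⁻¹ := if_pos hi
      rw [if_pos hi, e]
      apply od_eq
      rw [map_inv₀, hϖ, ← exp_neg]
    · have e : s i = 1 := if_neg hi
      rw [if_neg hi, e]
      exact od_one v
  have hd' : ∀ i j, i ≠ j → (od v (s i * (α i * ϖ + β i * 0) * (s j * (α j * -r + β j * 1)) -
      s j * (α j * ϖ + β j * 0) * (s i * (α i * -r + β i * 1))) : ℤ) =
      od v (α i * β j - α j * β i) + 1 + (if i ∈ cls v α β i₀ then -1 else 0) +
        (if j ∈ cls v α β i₀ then -1 else 0) := by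
    intro i j hij
    have h1 := hN.cr_ne hc i j hij
    rw [hcr', od_mul v (mul_ne_zero hϖ0 (mul_ne_zero (hs0 i) (hs0 j))) h1,
      od_mul v hϖ0 (mul_ne_zero (hs0 i) (hs0 j)), od_mul v (hs0 i) (hs0 j), hϖ1, hods, hods]
    ring
  have hsum : ∀ (w : Fin (h + h) → Fin (h + h) → K), (∀ i, w i i = 0) → (∀ i j, 0 ≤ od v (w i j)) →
      ((∑ i, ∑ j, (od v (w i j)).toNat : ℕ) : ℤ) =
        ∑ i, ∑ j ∈ univ.erase i, od v (w i j) := by
    intro w hw0 hw
    push_cast
    refine Finset.sum_congr rfl fun i _ => ?_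
    rw [← Finset.add_sum_erase univ _ (mem_univ i), hw0, od_zero]
    simp only [Int.toNat_zero, Nat.cast_zero, zero_add]
    refine Finset.sum_congr rfl fun j _ => ?_
    exact Int.toNat_of_nonneg (hw i j)
  have hS : ((SS v α β : ℕ) : ℤ) = ∑ i, ∑ j ∈ univ.erase i, od v (α i * β j - α j * β i) := by
    unfold SS
    exact hsum (fun i j => α i * β j - α j * β i) (fun i => sub_self _) (hN.od_nonneg hc)
  have hS' := hsum (fun i j => s i * (α i * ϖ + β i * 0) * (s j * (α j * -r + β j * 1)) -
      s j * (α j * ϖ + β j * 0) * (s i * (α i * -r + β i * 1))) (fun i => sub_self _)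
      (hN'.od_nonneg hc)
  have hcount : (∑ i : Fin (h + h), ∑ j ∈ univ.erase i, ((1 : ℤ) +
      (if i ∈ cls v α β i₀ then -1 else 0) + (if j ∈ cls v α β i₀ then -1 else 0))) =
      (((h + h : ℕ) : ℤ) - 1) * (((h + h : ℕ) : ℤ) - 2 * m) := by
    have e1 : ∀ i : Fin (h + h), ∑ j ∈ univ.erase i, ((1 : ℤ) +
        (if i ∈ cls v α β i₀ then -1 else 0) + (if j ∈ cls v α β i₀ then -1 else 0)) =
        (((h + h : ℕ) : ℤ) - 1) - m +
          (if i ∈ cls v α β i₀ then -1 else 0) * (((h + h : ℕ) : ℤ) - 2) := by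
      intro i
      rw [Finset.sum_add_distrib, Finset.sum_const, Finset.card_erase_of_mem (mem_univ i),
        Finset.card_univ, Fintype.card_fin]
      have e2 : ∑ j ∈ univ.erase i, (if j ∈ cls v α β i₀ then (-1 : ℤ) else 0) =
          -m - (if i ∈ cls v α β i₀ then -1 else 0) := by
        have e3 := Finset.add_sum_erase univ
          (fun j => if j ∈ cls v α β i₀ then (-1 : ℤ) else 0) (mem_univ i)
        have e4 : ∑ j, (if j ∈ cls v α β i₀ then (-1 : ℤ) else 0) = -m := by
          rw [Finset.sum_ite_mem, Finset.univ_inter, Finset.sum_const, ← hmdef]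
          simp
        linarith
      rw [e2]
      have hn1 : 1 ≤ h + h := by
        have := i.isLt
        omega
      rw [nsmul_eq_mul]
      push_cast [Nat.cast_sub hn1]
      ring
    rw [Finset.sum_congr rfl fun i _ => e1 i, Finset.sum_add_distrib, Finset.sum_const,
      Finset.card_univ, Fintype.card_fin, ← Finset.sum_mul, Finset.sum_ite_mem,
      Finset.univ_inter, Finset.sum_const, ← hmdef]
    simp only [nsmul_eq_mul]
    ring
  have hfin : ((SS v (fun i => s i * (α i * ϖ + β i * 0)) (fun i => s i * (α i * -r + β i * 1)) : ℕ)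
      : ℤ) = (SS v α β : ℤ) + (((h + h : ℕ) : ℤ) - 1) * (((h + h : ℕ) : ℤ) - 2 * m) := by
    rw [← hcount, hS, ← Finset.sum_add_distrib]
    unfold SS
    rw [hS']
    refine Finset.sum_congr rfl fun i _ => ?_
    rw [← Finset.sum_add_distrib]
    refine Finset.sum_congr rfl fun j hj => ?_
    rw [hd' i j (Finset.ne_of_mem_erase hj).symm]
    ring
  have hneg : (((h + h : ℕ) : ℤ) - 1) * (((h + h : ℕ) : ℤ) - 2 * m) < 0 := by
    have h1 : (1 : ℤ) ≤ ((h + h : ℕ) : ℤ) - 1 := by
      have h3 := card_le_univ (cls v α β i₀)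
      rw [Fintype.card_fin] at h3
      omega
    have h2 : ((h + h : ℕ) : ℤ) - 2 * m < 0 := by
      have : (h : ℤ) + 1 ≤ m := by exact_mod_cast hm
      push_cast
      linarith
    nlinarith
  have h3 : ((SS v (fun i => s i * (α i * ϖ + β i * 0)) (fun i => s i * (α i * -r + β i * 1)) : ℕ)
      : ℤ) < (SS v α β : ℤ) := by linarith
  exact_mod_cast h3

theorem step_two (hN : Nrm v h F c₀ u α β) (hc : ∀ i j, i ≠ j → c₀ i j ≠ 0) (i₀ : Fin (h + h))
    (hm : h + 1 ≤ (cls v α β i₀).card) :
    ∃ (u' : K) (α' β' : Fin (h + h) → K), Nrm v h F c₀ u' α' β' ∧ SS v α' β' < SS v α β := by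
  have h1 := hN.unit i₀
  rcases le_total (v.valuation K (α i₀)) (v.valuation K (β i₀)) with h2 | h2
  · rw [max_eq_right h2] at h1
    obtain ⟨u', α', β', h3, h4⟩ := step_one hN.swap hc i₀ (by rwa [cls_swap]) h1
    exact ⟨u', α', β', h3, h4.trans_eq SS_swap⟩
  · rw [max_eq_left h2] at h1
    exact step_one hN hc i₀ hm h1

/-- there is a model in which each class contains at most half of the roots -/
theorem exists_balanced (hc : ∀ i j, i ≠ j → c₀ i j ≠ 0) : ∀ (N : ℕ) (u : K)
    (α β : Fin (h + h) → K), Nrm v h F c₀ u α β → SS v α β ≤ N →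
    ∃ (u' : K) (α' β' : Fin (h + h) → K), Nrm v h F c₀ u' α' β' ∧
      ∀ i, (cls v α' β' i).card ≤ h := by
  intro N
  induction N with
  | zero =>
    intro u α β hN hS
    by_cases hex : ∃ i₀, h + 1 ≤ (cls v α β i₀).card
    · obtain ⟨i₀, hi⟩ := hex
      obtain ⟨u', α', β', -, h4⟩ := step_two hN hc i₀ hi
      omega
    · push Not at hex
      exact ⟨u, α, β, hN, fun i => by have := hex i; omega⟩
  | succ N ih =>
    intro u α β hN hS
    by_cases hex : ∃ i₀, h + 1 ≤ (cls v α β i₀).card
    · obtain ⟨i₀, hi⟩ := hex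
      obtain ⟨u', α', β', h3, h4⟩ := step_two hN hc i₀ hi
      exact ih u' α' β' h3 (by omega)
    · push Not at hex
      exact ⟨u, α, β, hN, fun i => by have := hex i; omega⟩

end Pool.Agent.Q128.HD
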