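import Pool.Agent.TH905.HS.Loc1

set_option autoImplicit false

/-!
# Orders at a prime of a number field; normalised linear forms
-/

namespace Pool.Agent.Q128.HD

open Polynomial Finset NumberField IsDedekindDomain WithZero Pool.Agent.W318

section od

variable {K : Type} [Field K] [NumberField K] (v : HeightOneSpectrum (𝓞 K))

/-- the order at `v` -/
noncomputable def od (x : K) : ℤ := -WithZero.log (v.valuation K x)

theorem val_eq {x : K} (hx : x ≠ 0) : v.valuation K x = exp (-(od v x)) := by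
  unfold od
  rw [neg_neg, exp_log ((Valuation.ne_zero_iff _).mpr hx)]

theorem od_eq {x : K} {k : ℤ} (h : v.valuation K x = exp (-k)) : od v x = k := by
  unfold od
  rw [h, log_exp, neg_neg]

theorem od_zero : od v (0 : K) = 0 := by
  unfold od
  rw [map_zero, log_zero, neg_zero]

theorem od_one : od v (1 : K) = 0 := by
  unfold od
  rw [map_one, log_one, neg_zero]

theorem od_neg (x : K) : od v (-x) = od v x := by
  unfold od
  rw [Valuation.map_neg]

theorem od_mul {x y : K} (hx : x ≠ 0) (hy : y ≠ 0) : od v (x * y) = od v x + od v y := by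
  unfold od
  rw [map_mul, log_mul ((Valuation.ne_zero_iff _).mpr hx) ((Valuation.ne_zero_iff _).mpr hy)]
  ring

theorem val_le_one_iff {x : K} (hx : x ≠ 0) : v.valuation K x ≤ 1 ↔ 0 ≤ od v x := by
  rw [val_eq v hx, ← exp_zero, exp_le_exp]
  omega

theorem val_lt_one_iff {x : K} (hx : x ≠ 0) : v.valuation K x < 1 ↔ 1 ≤ od v x := by
  rw [val_eq v hx, ← exp_zero, exp_lt_exp]
  omega

theorem val_eq_one_iff {x : K} (hx : x ≠ 0) : v.valuation K x = 1 ↔ od v x = 0 := by
  rw [val_eq v hx, ← exp_zero, exp_inj]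
  omega

theorem absW_eq {x : K} (hx : x ≠ 0) : absW v x = 2 ^ (-(od v x)) := absW_exp v (val_eq v hx)

theorem val_le_iff {x y : K} (hx : x ≠ 0) (hy : y ≠ 0) :
    v.valuation K x ≤ v.valuation K y ↔ od v y ≤ od v x := by
  rw [val_eq v hx, val_eq v hy, exp_le_exp]
  omega

theorem absW_lt_one_iff (x : K) : absW v x < 1 ↔ v.valuation K x < 1 := by
  rcases eq_or_ne x 0 with rfl | hx
  · simp
  rw [absW_eq v hx, val_lt_one_iff v hx]
  constructor
  · intro h
    by_contra hcon
    have h1 : (1 : ℝ) ≤ 2 ^ (-(od v x)) := one_le_zpow₀ (by norm_num) (by omega)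
    linarith
  · intro h
    exact zpow_lt_one_of_neg₀ (by norm_num) (by omega)

theorem absW_eq_one_iff (x : K) : absW v x = 1 ↔ v.valuation K x = 1 := by
  rcases eq_or_ne x 0 with rfl | hx
  · simp
  rw [absW_eq v hx, val_eq_one_iff v hx]
  constructor
  · intro h
    have h1 := (zpow_eq_one_iff_right₀ (by norm_num : (0 : ℝ) ≤ 2) (by norm_num)).mp h
    omega
  · intro h
    rw [h]
    simp

theorem exists_unif : ∃ ϖ : K, ϖ ≠ 0 ∧ od v ϖ = 1 ∧ v.valuation K ϖ = exp (-1 : ℤ) := by
  obtain ⟨ϖ, hϖ⟩ := v.valuation_exists_uniformizer K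
  have hϖ0 : ϖ ≠ 0 := by
    rintro rfl
    rw [map_zero] at hϖ
    exact exp_ne_zero hϖ.symm
  exact ⟨ϖ, hϖ0, od_eq v hϖ, hϖ⟩

end od

end Pool.Agent.Q128.HD
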