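import Pool.Agent.Q128.HD.Bal

set_option autoImplicit false

/-!
# The minimal discriminant and the cross ratios of the Weierstrass points, locally: summation over the
quadruples
-/

namespace Pool.Agent.Q128.HD

open Polynomial Finset NumberField IsDedekindDomain WithZero Pool.Agent.W318

/-! ### the summation -/

theorem quad_sum {ι : Type*} [Fintype ι] [DecidableEq ι] (h : ℕ) (hn : Fintype.card ι = h + h)
    (δ : ι → ι → ℕ) (cl : ι → Finset ι) (hcl : ∀ i, (cl i).card ≤ h) (L : ι → ι → ι → ι → ℕ)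
    (hL : ∀ i j k l, (if k ∉ cl i ∧ l ∉ cl i ∧ k ≠ l then δ i j else 0) +
      (if i ∉ cl k ∧ j ∉ cl k ∧ i ≠ j then δ k l else 0) ≤ L i j k l) :
    2 * (h * (h - 1)) * ∑ i, ∑ j, δ i j ≤ ∑ i, ∑ j, ∑ k, ∑ l, L i j k l := by
  have h1 : ∀ i j, h * (h - 1) * δ i j ≤
      ∑ k, ∑ l, (if k ∉ cl i ∧ l ∉ cl i ∧ k ≠ l then δ i j else 0) := by
    intro i j
    rw [← Finset.sum_product', univ_product_univ, ← Finset.sum_filter, Finset.sum_const,
      smul_eq_mul]
    apply Nat.mul_le_mul_right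
    have e1 : univ.filter (fun x : ι × ι => x.1 ∉ cl i ∧ x.2 ∉ cl i ∧ x.1 ≠ x.2) =
        ((cl i)ᶜ).offDiag := by
      ext x
      simp [mem_offDiag]
    rw [e1, offDiag_card, card_compl, hn]
    have h2 : h ≤ h + h - (cl i).card := by have := hcl i; omega
    have h3 : ∀ a : ℕ, a * a - a = a * (a - 1) := fun a => by
      rw [Nat.mul_sub, mul_one]
    rw [h3]
    exact Nat.mul_le_mul h2 (Nat.sub_le_sub_right h2 1)
  have h2 : h * (h - 1) * ∑ i, ∑ j, δ i j ≤
      ∑ i, ∑ j, ∑ k, ∑ l, (if k ∉ cl i ∧ l ∉ cl i ∧ k ≠ l then δ i j else 0) := by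
    rw [Finset.mul_sum]
    refine Finset.sum_le_sum fun i _ => ?_
    rw [Finset.mul_sum]
    exact Finset.sum_le_sum fun j _ => h1 i j
  have h3 : ∑ i, ∑ j, ∑ k, ∑ l, (if i ∉ cl k ∧ j ∉ cl k ∧ i ≠ j then δ k l else 0) =
      ∑ i, ∑ j, ∑ k, ∑ l, (if k ∉ cl i ∧ l ∉ cl i ∧ k ≠ l then δ i j else 0) := by
    have e1 : ∀ f : ι → ι → ι → ι → ℕ, ∑ i, ∑ j, ∑ k, ∑ l, f i j k l =
        ∑ p : ι × ι, ∑ q : ι × ι, f p.1 p.2 q.1 q.2 := by
      intro f
      rw [Fintype.sum_prod_type]
      refine Finset.sum_congr rfl fun i _ => Finset.sum_congr rfl fun j _ => ?_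
      rw [Fintype.sum_prod_type]
    rw [e1 fun i j k l => if i ∉ cl k ∧ j ∉ cl k ∧ i ≠ j then δ k l else 0,
      e1 fun i j k l => if k ∉ cl i ∧ l ∉ cl i ∧ k ≠ l then δ i j else 0, Finset.sum_comm]
  have h4 : ∑ i, ∑ j, ∑ k, ∑ l, ((if k ∉ cl i ∧ l ∉ cl i ∧ k ≠ l then δ i j else 0) +
      (if i ∉ cl k ∧ j ∉ cl k ∧ i ≠ j then δ k l else 0)) ≤
      ∑ i, ∑ j, ∑ k, ∑ l, L i j k l :=
    Finset.sum_le_sum fun i _ => Finset.sum_le_sum fun j _ => Finset.sum_le_sum fun k _ =>
      Finset.sum_le_sum fun l _ => hL i j k l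
  simp only [Finset.sum_add_distrib] at h4
  rw [h3] at h4
  calc 2 * (h * (h - 1)) * ∑ i, ∑ j, δ i j = h * (h - 1) * ∑ i, ∑ j, δ i j +
        h * (h - 1) * ∑ i, ∑ j, δ i j := by ring
    _ ≤ _ := (Nat.add_le_add h2 h2).trans h4

variable {K : Type} [Field K] [NumberField K] {v : HeightOneSpectrum (𝓞 K)}

/-- the excess of the order of the first of three numbers over the smallest order -/
noncomputable def exc (v : HeightOneSpectrum (𝓞 K)) (x y z : K) : ℕ :=
  (od v x - min (od v x) (min (od v y) (od v z))).toNat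

theorem exc_smul {c x y z : K} (hc : c ≠ 0) (hx : x ≠ 0) (hy : y ≠ 0) (hz : z ≠ 0) :
    exc v (c * x) (c * y) (c * z) = exc v x y z := by
  unfold exc
  rw [od_mul v hc hx, od_mul v hc hy, od_mul v hc hz]
  congr 1
  rcases le_total (od v y) (od v z) with h1 | h1 <;>
    rcases le_total (od v x) (od v y) with h2 | h2 <;>
    rcases le_total (od v x) (od v z) with h3 | h3 <;> omega

/-- all four indices are different -/
def Dist {ι : Type*} (i j k l : ι) : Prop := i ≠ j ∧ i ≠ k ∧ i ≠ l ∧ j ≠ k ∧ j ≠ l ∧ k ≠ l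

instance {ι : Type*} [DecidableEq ι] (i j k l : ι) : Decidable (Dist i j k l) := by
  unfold Dist
  infer_instance

/-- the excess for a quadruple of indices -/
noncomputable def lev {ι : Type*} [DecidableEq ι] (v : HeightOneSpectrum (𝓞 K)) (c : ι → ι → K)
    (i j k l : ι) : ℕ :=
  if Dist i j k l then exc v (c i j * c k l) (c i k * c j l) (c i l * c j k) else 0

section

variable {h : ℕ} {F : K[X]} {c₀ : Fin (h + h) → Fin (h + h) → K} {u : K}
  {α β : Fin (h + h) → K}

theorem lev_rel (hN : Nrm v h F c₀ u α β) (hc : ∀ i j, i ≠ j → c₀ i j ≠ 0)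
    (i j k l : Fin (h + h)) :
    lev v (fun i j => α i * β j - α j * β i) i j k l = lev v c₀ i j k l := by
  obtain ⟨D, s, hD, hs, hr⟩ := hN.rel
  unfold lev
  by_cases hd : Dist i j k l
  · rw [if_pos hd, if_pos hd]
    obtain ⟨hij, hik, hil, hjk, hjl, hkl⟩ := hd
    have e1 : (α i * β j - α j * β i) * (α k * β l - α l * β k) =
        (D ^ 2 * s i * s j * s k * s l) * (c₀ i j * c₀ k l) := by
      rw [hr, hr]; ring
    have e2 : (α i * β k - α k * β i) * (α j * β l - α l * β j) =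
        (D ^ 2 * s i * s j * s k * s l) * (c₀ i k * c₀ j l) := by
      rw [hr, hr]; ring
    have e3 : (α i * β l - α l * β i) * (α j * β k - α k * β j) =
        (D ^ 2 * s i * s j * s k * s l) * (c₀ i l * c₀ j k) := by
      rw [hr, hr]; ring
    rw [e1, e2, e3]
    exact exc_smul (mul_ne_zero (mul_ne_zero (mul_ne_zero (mul_ne_zero (pow_ne_zero 2 hD) (hs i))
      (hs j)) (hs k)) (hs l)) (mul_ne_zero (hc i j hij) (hc k l hkl))
      (mul_ne_zero (hc i k hik) (hc j l hjl)) (mul_ne_zero (hc i l hil) (hc j k hjk))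
  · rw [if_neg hd, if_neg hd]

theorem cr_anti (i j : Fin (h + h)) : α i * β j - α j * β i = -(α j * β i - α i * β j) := by ring

theorem cls_trans (hN : Nrm v h F c₀ u α β) {i j k : Fin (h + h)} (hj : j ∈ cls v α β i)
    (hk : k ∉ cls v α β i) : k ∉ cls v α β j := by
  intro hjk
  apply hk
  rw [mem_cls, ← absW_lt_one_iff] at hj hjk ⊢
  exact (chord_ultra (absW_na v) (fun i => unit_abs (hN.unit i)) i j k).trans_lt (max_lt hj hjk)

theorem lev_ge (hN : Nrm v h F c₀ u α β) (hc : ∀ i j, i ≠ j → c₀ i j ≠ 0)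
    (i j k l : Fin (h + h)) (hδ : 0 < (od v (α i * β j - α j * β i)).toNat)
    (hk : k ∉ cls v α β i) (hl : l ∉ cls v α β i) (hkl : k ≠ l) :
    (od v (α i * β j - α j * β i)).toNat + (od v (α k * β l - α l * β k)).toNat ≤
      lev v (fun i j => α i * β j - α j * β i) i j k l := by
  have hij : i ≠ j := by
    rintro rfl
    rw [sub_self, od_zero] at hδ
    simp at hδ
  have hji : j ∈ cls v α β i := by
    rw [mem_cls, val_lt_one_iff v (hN.cr_ne hc i j hij)]
    omega
  have hii : i ∈ cls v α β i := by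
    rw [mem_cls, sub_self, map_zero]
    exact zero_lt_one
  have hik : i ≠ k := fun h => hk (h ▸ hii)
  have hil : i ≠ l := fun h => hl (h ▸ hii)
  have hjk : j ≠ k := fun h => hk (h ▸ hji)
  have hjl : j ≠ l := fun h => hl (h ▸ hji)
  have hkj := cls_trans hN hji hk
  have hlj := cls_trans hN hji hl
  have hz : ∀ a b : Fin (h + h), a ≠ b → b ∉ cls v α β a → od v (α a * β b - α b * β a) = 0 := by
    intro a b hab hb
    rw [mem_cls, not_lt] at hb
    exact (val_eq_one_iff v (hN.cr_ne hc a b hab)).mp (le_antisymm (hN.cr_le a b) hb)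
  have z1 := hz i k hik hk
  have z2 := hz i l hil hl
  have z3 := hz j k hjk hkj
  have z4 := hz j l hjl hlj
  have n1 := hN.cr_ne hc i j hij
  have n2 := hN.cr_ne hc k l hkl
  have n3 := hN.cr_ne hc i k hik
  have n4 := hN.cr_ne hc j l hjl
  have n5 := hN.cr_ne hc i l hil
  have n6 := hN.cr_ne hc j k hjk
  have p1 := hN.od_nonneg hc i j
  have p2 := hN.od_nonneg hc k l
  unfold lev
  rw [if_pos ⟨hij, hik, hil, hjk, hjl, hkl⟩]
  unfold exc
  rw [od_mul v n1 n2, od_mul v n3 n4, od_mul v n5 n6, z1, z2, z3, z4]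
  simp only [add_zero, min_self]
  rw [min_eq_right (by omega)]
  omega

theorem lev_symm (c : Fin (h + h) → Fin (h + h) → K) (hc : ∀ i j, c i j = -c j i)
    (i j k l : Fin (h + h)) : lev v c i j k l = lev v c k l i j := by
  unfold lev
  by_cases hd : Dist i j k l
  · have hd' : Dist k l i j := by
      obtain ⟨hij, hik, hil, hjk, hjl, hkl⟩ := hd
      exact ⟨hkl, hik.symm, hjk.symm, hil.symm, hjl.symm, hij⟩
    rw [if_pos hd, if_pos hd']
    have e1 : c k l * c i j = c i j * c k l := mul_comm _ _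
    have e2 : c k i * c l j = c i k * c j l := by rw [hc k i, hc l j]; ring
    have e3 : c k j * c l i = c i l * c j k := by rw [hc k j, hc l i]; ring
    rw [e1, e2, e3]
  · have hd' : ¬ Dist k l i j := by
      intro h1
      apply hd
      obtain ⟨hij, hik, hil, hjk, hjl, hkl⟩ := h1
      exact ⟨hkl, hik.symm, hjk.symm, hil.symm, hjl.symm, hij⟩
    rw [if_neg hd, if_neg hd']

theorem SS_le (hN : Nrm v h F c₀ u α β) (hc : ∀ i j, i ≠ j → c₀ i j ≠ 0)
    (hcl : ∀ i, (cls v α β i).card ≤ h) :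
    2 * (h * (h - 1)) * SS v α β ≤ ∑ i, ∑ j, ∑ k, ∑ l, lev v c₀ i j k l := by
  have h1 := quad_sum h (by simp) (fun i j => (od v (α i * β j - α j * β i)).toNat)
    (fun i => cls v α β i) hcl (fun i j k l => lev v (fun i j => α i * β j - α j * β i) i j k l)
    (by
      intro i j k l
      by_cases hA : k ∉ cls v α β i ∧ l ∉ cls v α β i ∧ k ≠ l
      · by_cases hδ : 0 < (od v (α i * β j - α j * β i)).toNat
        · have := lev_ge hN hc i j k l hδ hA.1 hA.2.1 hA.2.2
          rw [if_pos hA]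
          refine le_trans (Nat.add_le_add_left ?_ _) this
          split_ifs
          · exact le_rfl
          · exact Nat.zero_le _
        · have h0 : (od v (α i * β j - α j * β i)).toNat = 0 := by omega
          rw [if_pos hA, h0, zero_add]
          by_cases hB : i ∉ cls v α β k ∧ j ∉ cls v α β k ∧ i ≠ j
          · rw [if_pos hB]
            by_cases hδ' : 0 < (od v (α k * β l - α l * β k)).toNat
            · have := lev_ge hN hc k l i j hδ' hB.1 hB.2.1 hB.2.2
              rw [lev_symm _ (fun i j => cr_anti i j) i j k l]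
              omega
            · omega
          · rw [if_neg hB]
            exact Nat.zero_le _
      · rw [if_neg hA, zero_add]
        by_cases hB : i ∉ cls v α β k ∧ j ∉ cls v α β k ∧ i ≠ j
        · rw [if_pos hB]
          by_cases hδ' : 0 < (od v (α k * β l - α l * β k)).toNat
          · have := lev_ge hN hc k l i j hδ' hB.1 hB.2.1 hB.2.2
            rw [lev_symm _ (fun i j => cr_anti i j) i j k l]
            omega
          · omega
        · rw [if_neg hB]
          exact Nat.zero_le _)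
  simp only [lev_rel hN hc] at h1
  exact h1

end

/-- **The local inequality.** -/
theorem local_quad {g : ℕ} (hg : 1 ≤ g) {F : K[X]} (hF : IsHyp g F) {u₀ : K} (hu : u₀ ≠ 0)
    (α β : Fin (g + 1 + (g + 1)) → K) (hc : ∀ i j, i ≠ j → α i * β j - α j * β i ≠ 0)
    (hFe : F = C u₀ * ∏ i, (C (α i) * X + C (β i))) (v : HeightOneSpectrum (𝓞 K)) {t : ℕ}
    (ht : v.valuation K (2 : K) = exp (-(t : ℤ))) :
    2 * ((g + 1) * g) * minExp g F v ≤ 2 * ((g + 1) * g) * (4 * g * t + (4 * g + 2)) +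
      ∑ i, ∑ j, ∑ k, ∑ l, lev v (fun i j => α i * β j - α j * β i) i j k l := by
  obtain ⟨u, α', β', hN⟩ := exists_nrm v (by omega) hu α β hc
  rw [← hFe] at hN
  obtain ⟨u', α'', β'', hN', hcl⟩ := exists_balanced hc _ u α' β' hN le_rfl
  have h1 := minExp_le_SS hg hF hN' hc ht
  have h2 := SS_le hN' hc hcl
  rw [show g + 1 - 1 = g by omega] at h2
  calc 2 * ((g + 1) * g) * minExp g F v ≤
        2 * ((g + 1) * g) * (4 * g * t + (4 * g + 2) + SS v α'' β'') := Nat.mul_le_mul_left _ h1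
    _ = 2 * ((g + 1) * g) * (4 * g * t + (4 * g + 2)) + 2 * ((g + 1) * g) * SS v α'' β'' := by ring
    _ ≤ _ := Nat.add_le_add_left h2 _

end Pool.Agent.Q128.HD
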